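import Mathlib
import Pool.Agent.H72.TR.Stm

/-!
# Module INST: the instances for the lower bound of two rounds
-/

set_option autoImplicit false

namespace Pool.Agent.H83.TR

open Finset Pool.Agent.K4H88.Ter Pool.Agent.K4H88.Rounds Pool.Agent.H72.TR

/-! ## Forms with three terms -/

/-- the value of the form with the signs `s` at the places `p` -/
def TT {n : ℕ} (s : Fin 3 → ℤ) (p : Fin 3 → Fin n) (g : Fin n → ℤ) : ℤ := ∑ l, s l * g (p l)

theorem TT_eq {n : ℕ} (s : Fin 3 → ℤ) (p : Fin 3 → Fin n) (g : Fin n → ℤ) :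
    TT s p g = s 0 * g (p 0) + s 1 * g (p 1) + s 2 * g (p 2) := Fin.sum_univ_three _

theorem coef {n : ℕ} {c : Fin n → ℝ} {s : Fin 3 → ℤ} {p : Fin 3 → Fin n}
    (hc : ∀ u, c u = ∑ l, if p l = u then (s l : ℝ) else 0) (u : Fin n) :
    c u = ((TT s p fun q => if q = u then 1 else 0 : ℤ) : ℝ) := by
  rw [hc, TT, Int.cast_sum]
  refine sum_congr rfl fun l _ => ?_
  split_ifs
  · rw [mul_one]
  · rw [mul_zero, Int.cast_zero]

theorem val {n : ℕ} {c : Fin n → ℝ} {s : Fin 3 → ℤ} {p : Fin 3 → Fin n}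
    (hc : ∀ u, c u = ∑ l, if p l = u then (s l : ℝ) else 0) (g : Fin n → ℤ) :
    ∑ u, c u * (g u : ℝ) = ((TT s p g : ℤ) : ℝ) := by
  rw [TT, Int.cast_sum]
  simp only [hc, Finset.sum_mul]
  rw [Finset.sum_comm]
  refine sum_congr rfl fun l _ => ?_
  rw [Finset.sum_eq_single (p l), if_pos rfl, Int.cast_mul]
  · intro b _ hb
    rw [if_neg hb.symm, zero_mul]
  · intro h
    exact absurd (mem_univ _) h

theorem forms {n : ℕ} (s : Fin 3 → ℤ) (p : Fin 3 → Fin n)
    (hs : ∀ l, s l = -1 ∨ s l = 0 ∨ s l = 1) (u : Fin n → ℤ) (hu : ∀ q, 1 ≤ u q)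
    (hU : TT s p u = 0) :
    (∀ g, TT s p g = 0) ∨ (∃ i j, u i = u j ∧ ∀ g, TT s p g = g i - g j) ∨
      ∃ i j k, u i + u j = u k ∧
        ((∀ g, TT s p g = g i + g j - g k) ∨ ∀ g, TT s p g = -(g i + g j - g k)) := by
  have h0 := hu (p 0)
  have h1 := hu (p 1)
  have h2 := hu (p 2)
  simp only [TT_eq] at hU ⊢
  rcases hs 0 with a | a | a <;> rcases hs 1 with b | b | b <;> rcases hs 2 with c | c | c <;>
    rw [a, b, c] at hU ⊢ <;>
    first
    | (exfalso; omega)
    | exact Or.inl fun g => by ring1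
    | exact Or.inr (Or.inl ⟨p 0, p 1, by omega, fun g => by ring1⟩)
    | exact Or.inr (Or.inl ⟨p 1, p 0, by omega, fun g => by ring1⟩)
    | exact Or.inr (Or.inl ⟨p 0, p 2, by omega, fun g => by ring1⟩)
    | exact Or.inr (Or.inl ⟨p 2, p 0, by omega, fun g => by ring1⟩)
    | exact Or.inr (Or.inl ⟨p 1, p 2, by omega, fun g => by ring1⟩)
    | exact Or.inr (Or.inl ⟨p 2, p 1, by omega, fun g => by ring1⟩)
    | exact Or.inr (Or.inr ⟨p 0, p 1, p 2, by omega, Or.inl fun g => by ring1⟩)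
    | exact Or.inr (Or.inr ⟨p 0, p 2, p 1, by omega, Or.inl fun g => by ring1⟩)
    | exact Or.inr (Or.inr ⟨p 1, p 2, p 0, by omega, Or.inl fun g => by ring1⟩)
    | exact Or.inr (Or.inr ⟨p 0, p 1, p 2, by omega, Or.inr fun g => by ring1⟩)
    | exact Or.inr (Or.inr ⟨p 0, p 2, p 1, by omega, Or.inr fun g => by ring1⟩)
    | exact Or.inr (Or.inr ⟨p 1, p 2, p 0, by omega, Or.inr fun g => by ring1⟩)

theorem TT_add {n : ℕ} (s : Fin 3 → ℤ) (p : Fin 3 → Fin n) (g h : Fin n → ℤ) :
    TT s p (fun q => g q + h q) = TT s p g + TT s p h := by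
  simp only [TT_eq]
  ring

theorem TT_mul {n : ℕ} (s : Fin 3 → ℤ) (p : Fin 3 → Fin n) (a : ℤ) (g : Fin n → ℤ) :
    TT s p (fun q => a * g q) = a * TT s p g := by
  simp only [TT_eq]
  ring

theorem TT_abs {n : ℕ} {s : Fin 3 → ℤ} {p : Fin 3 → Fin n}
    (hs : ∀ l, s l = -1 ∨ s l = 0 ∨ s l = 1) {g : Fin n → ℤ} {R : ℤ} (hg : ∀ q, |g q| ≤ R) :
    |TT s p g| ≤ 3 * R := by
  have h : ∀ l, |s l * g (p l)| ≤ R := by
    intro l
    have h1 := hg (p l)
    rw [abs_mul]
    rcases hs l with h | h | h <;> rw [h]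
    · rw [abs_neg, abs_one, one_mul]; exact h1
    · rw [abs_zero, zero_mul]; exact (abs_nonneg _).trans h1
    · rw [abs_one, one_mul]; exact h1
  rw [TT_eq]
  have h0 := h 0
  have h1 := h 1
  have h2 := h 2
  rw [abs_le] at h0 h1 h2 ⊢
  constructor <;> omega

theorem out_pos {n : ℕ} {c : Fin n → ℝ} {s : Fin 3 → ℤ} {p : Fin 3 → Fin n}
    (hc : ∀ u, c u = ∑ l, if p l = u then (s l : ℝ) else 0) {S : ℕ} {β : ℝ} (hβ : |β| < S)
    {v : Fin n → ℤ} {V t : ℤ} (hv : TT s p v = 8 * S * V + S * t) (ht : |t| ≤ 3) (hV : 1 ≤ V) :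
    out c β v = 1 := by
  rw [out, val hc, hv]
  apply sign_pos
  rw [abs_le] at ht
  rw [abs_lt] at hβ
  have h1 : (1 : ℝ) ≤ (V : ℝ) := by exact_mod_cast hV
  have h2 : (-3 : ℝ) ≤ (t : ℝ) := by exact_mod_cast ht.1
  have hS : (0 : ℝ) < S := by linarith [hβ.1, hβ.2]
  push_cast
  nlinarith [hβ.1]

theorem out_neg {n : ℕ} {c : Fin n → ℝ} {s : Fin 3 → ℤ} {p : Fin 3 → Fin n}
    (hc : ∀ u, c u = ∑ l, if p l = u then (s l : ℝ) else 0) {S : ℕ} {β : ℝ} (hβ : |β| < S)
    {v : Fin n → ℤ} {V t : ℤ} (hv : TT s p v = 8 * S * V + S * t) (ht : |t| ≤ 3) (hV : V ≤ -1) :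
    out c β v = -1 := by
  rw [out, val hc, hv]
  apply sign_neg
  rw [abs_le] at ht
  rw [abs_lt] at hβ
  have h1 : (V : ℝ) ≤ -1 := by exact_mod_cast hV
  have h2 : (t : ℝ) ≤ 3 := by exact_mod_cast ht.2
  have hS : (0 : ℝ) < S := by linarith [hβ.1, hβ.2]
  push_cast
  nlinarith [hβ.2]

/-! ## The numbers -/

theorem pow4_lt {i j : ℕ} (h : i < j) : 4 * (4 : ℤ) ^ i ≤ 4 ^ j := by
  rw [← pow_succ']
  exact pow_le_pow_right₀ (by norm_num) h

theorem pow4_pos (i : ℕ) : (1 : ℤ) ≤ 4 ^ i := one_le_pow₀ (by norm_num)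

theorem pow4_inj {i j : ℕ} (h : (4 : ℤ) ^ i = 4 ^ j) : i = j := by
  rcases lt_trichotomy i j with h1 | h1 | h1
  · have := pow4_lt h1
    have := pow4_pos i
    omega
  · exact h1
  · have := pow4_lt h1
    have := pow4_pos j
    omega

/-- three digits in the base four -/
theorem digits {a b c i j k : ℕ} (ab : a < b) (bc : b < c) (ij : i < j) (jk : j < k)
    (aj : a < j) (bk : b < k) (ib : i < b) (jc : j < c)
    (h : (4 : ℤ) ^ i + 4 ^ j + 4 ^ c = 4 ^ a + 4 ^ b + 4 ^ k) : i = a ∧ j = b ∧ k = c := by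
  have pa := pow4_pos a
  have pi := pow4_pos i
  have pc := pow4_pos c
  have pk := pow4_pos k
  have h1 := pow4_lt ab
  have h2 := pow4_lt bc
  have h3 := pow4_lt ij
  have h4 := pow4_lt jk
  have h5 := pow4_lt aj
  have h6 := pow4_lt bk
  have h7 := pow4_lt ib
  have h8 := pow4_lt jc
  have hkc : k = c := by
    rcases lt_trichotomy k c with h9 | h9 | h9
    · have := pow4_lt h9
      omega
    · exact h9
    · have := pow4_lt h9
      omega
  subst hkc
  have hjb : j = b := by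
    rcases lt_trichotomy j b with h9 | h9 | h9
    · have := pow4_lt h9
      omega
    · exact h9
    · have := pow4_lt h9
      omega
  subst hjb
  refine ⟨pow4_inj ?_, rfl, rfl⟩
  omega

/-- the block as an integer, plus one -/
def uu {n : ℕ} (w : ℕ) (p : Fin n) : ℤ := (bl w p : ℤ) + 1

/-- the small part of `x` -/
def oo {n : ℕ} (p : Fin n) : ℤ := 4 ^ p.1

theorem oo_pos {n : ℕ} (p : Fin n) : 1 ≤ oo p := pow4_pos _

theorem oo_lt {n : ℕ} (p : Fin n) : 4 * oo p ≤ 4 ^ n := pow4_lt p.2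

theorem bl_lt {n w : ℕ} {p q : Fin n} (h : bl w p < bl w q) : p.1 < q.1 := by
  by_contra h1
  exact absurd (Nat.div_le_div_right (c := w) (not_lt.1 h1)) (not_le.2 h)

/-- the list `x` -/
def xx {n : ℕ} (w S : ℕ) (p : Fin n) : ℤ := 8 * S * (10000 * 4 ^ n * uu w p + (-(300 * 4 ^ n) + oo p))

section shift

variable {n : ℕ} (w : ℕ) (a b c : Fin n)

/-- the shift -/
def ss (p : Fin n) : ℤ :=
  if bl w p = bl w a then (if a ≤ p then 100 * 4 ^ n else 0)
  else if bl w p = bl w b then (if b ≤ p then 100 * 4 ^ n else 0)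
  else if bl w p = bl w c then
    (if p ≤ c then -(100 * 4 ^ n - (oo a + oo b - oo c)) else 0)
  else 0

/-- the list `z` -/
def zz (S : ℕ) (p : Fin n) : ℤ :=
  8 * S * (10000 * 4 ^ n * uu w p + (-(300 * 4 ^ n) + oo p + ss w a b c p))

/-- the list `y` -/
def yy (S : ℕ) (p : Fin n) : ℤ := zz w a b c S p + S * (if p = c then 1 else 0)

theorem ss_le (p : Fin n) : ss w a b c p ≤ 100 * 4 ^ n := by
  have h1 := oo_pos a; have h2 := oo_pos b; have h3 := oo_pos c
  have h4 := oo_lt a; have h5 := oo_lt b; have h6 := oo_lt c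
  unfold ss
  split_ifs <;> omega

theorem ss_ge (p : Fin n) : -(101 * 4 ^ n) ≤ ss w a b c p := by
  have h1 := oo_pos a; have h2 := oo_pos b; have h3 := oo_pos c
  have h4 := oo_lt a; have h5 := oo_lt b; have h6 := oo_lt c
  unfold ss
  split_ifs <;> omega

theorem ss_nonpos {p : Fin n} (h1 : bl w p ≠ bl w a) (h2 : bl w p ≠ bl w b) :
    ss w a b c p ≤ 0 := by
  have h1' := oo_pos a; have h2' := oo_pos b; have h3 := oo_pos c
  have h4 := oo_lt a; have h5 := oo_lt b; have h6 := oo_lt c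
  unfold ss
  rw [if_neg h1, if_neg h2]
  split_ifs <;> omega

theorem ss_nonneg {p : Fin n} (h : bl w p ≠ bl w c) : 0 ≤ ss w a b c p := by
  have h1' := oo_pos a
  have h4 := oo_lt a
  unfold ss
  rw [if_neg h]
  split_ifs <;> omega

theorem ss_mono {p q : Fin n} (h : bl w p = bl w q) (hpq : p ≤ q) :
    ss w a b c p ≤ ss w a b c q := by
  have h1' := oo_pos a; have h2' := oo_pos b; have h3 := oo_pos c
  have h4 := oo_lt a; have h5 := oo_lt b; have h6 := oo_lt c
  have hpq' : p.1 ≤ q.1 := hpq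
  unfold ss
  rw [h]
  simp only [Fin.le_def]
  split_ifs <;> omega

variable {w a b c}

theorem ss_form (hab : bl w a < bl w b) (hc : bl w c = bl w a + bl w b + 1) {i j k : Fin n}
    (h : bl w i + bl w j + 1 = bl w k) (h1 : ¬ (bl w i = bl w a ∧ bl w j = bl w b))
    (h2 : ¬ (bl w i = bl w b ∧ bl w j = bl w a)) :
    ss w a b c i + ss w a b c j - ss w a b c k ≤ 201 * 4 ^ n := by
  have e1 := ss_le w a b c i
  have e2 := ss_le w a b c j
  have e3 := ss_ge w a b c k
  have e4 : (1 : ℤ) ≤ 4 ^ n := pow4_pos n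
  by_cases hk : bl w k = bl w c
  · by_cases hi : bl w i = bl w a ∨ bl w i = bl w b
    · have h3 := ss_nonpos w a b c (p := j) (by omega) (by omega)
      omega
    · have h3 := ss_nonpos w a b c (p := i) (by omega) (by omega)
      omega
  · have h3 := ss_nonneg w a b c hk
    omega

theorem ss_zero (hab : bl w a < bl w b) (hc : bl w c = bl w a + bl w b + 1) {i j k : Fin n}
    (h1 : bl w i = bl w a) (h2 : bl w j = bl w b) (h3 : bl w k = bl w c)
    (h : -(300 * 4 ^ n) + (oo i + oo j - oo k) + (ss w a b c i + ss w a b c j - ss w a b c k) = 0) :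
    i = a ∧ j = b ∧ k = c := by
  have p1 := oo_pos a; have p2 := oo_pos b; have p3 := oo_pos c
  have p4 := oo_lt a; have p5 := oo_lt b; have p6 := oo_lt c
  have q1 := oo_pos i; have q2 := oo_pos j; have q3 := oo_pos k
  have q4 := oo_lt i; have q5 := oo_lt j; have q6 := oo_lt k
  have e1 : ss w a b c i = if a ≤ i then 100 * 4 ^ n else 0 := by
    unfold ss
    rw [if_pos h1]
  have e2 : ss w a b c j = if b ≤ j then 100 * 4 ^ n else 0 := by
    unfold ss
    rw [if_neg (by omega), if_pos h2]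
  have e3 : ss w a b c k = if k ≤ c then -(100 * 4 ^ n - (oo a + oo b - oo c)) else 0 := by
    unfold ss
    rw [if_neg (by omega), if_neg (by omega), if_pos h3]
  rw [e1, e2, e3] at h
  have h4 : oo i + oo j + oo c = oo a + oo b + oo k := by
    split_ifs at h <;> omega
  have h5 := digits (bl_lt (w := w) (p := a) (q := b) (by omega))
    (bl_lt (w := w) (p := b) (q := c) (by omega)) (bl_lt (w := w) (p := i) (q := j) (by omega))
    (bl_lt (w := w) (p := j) (q := k) (by omega)) (bl_lt (w := w) (p := a) (q := j) (by omega))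
    (bl_lt (w := w) (p := b) (q := k) (by omega)) (bl_lt (w := w) (p := i) (q := b) (by omega))
    (bl_lt (w := w) (p := j) (q := c) (by omega)) h4
  exact ⟨Fin.ext h5.1, Fin.ext h5.2.1, Fin.ext h5.2.2⟩

end shift

/-! ## The key lemma -/

section key

variable {n : ℕ} {w : ℕ} {a b c : Fin n} {s : Fin 3 → ℤ} {p : Fin 3 → Fin n}

/-- the value at `x` is `8 S Vx` -/
def Vx (w : ℕ) (s : Fin 3 → ℤ) (p : Fin 3 → Fin n) : ℤ :=
  10000 * (4 ^ n * TT s p (uu w)) + TT s p fun q => -(300 * 4 ^ n) + oo q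

/-- the value at `z` is `8 S Vz` -/
def Vz (w : ℕ) (a b c : Fin n) (s : Fin 3 → ℤ) (p : Fin 3 → Fin n) : ℤ :=
  10000 * (4 ^ n * TT s p (uu w)) + TT s p fun q => -(300 * 4 ^ n) + oo q + ss w a b c q

theorem TT_xx (S : ℕ) : TT s p (xx w S) = 8 * S * Vx w s p + S * 0 := by
  simp only [TT_eq, xx, Vx]
  ring

theorem TT_zz (S : ℕ) : TT s p (zz w a b c S) = 8 * S * Vz w a b c s p + S * 0 := by
  simp only [TT_eq, zz, Vz]
  ring

theorem TT_yy (S : ℕ) : TT s p (yy w a b c S) =
    8 * S * Vz w a b c s p + S * TT s p (fun q => if q = c then 1 else 0) := by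
  have h := TT_zz (w := w) (a := a) (b := b) (c := c) (s := s) (p := p) S
  rw [mul_zero, add_zero] at h
  rw [← h]
  simp only [TT_eq, yy]
  ring

theorem TT_ind (hs : ∀ l, s l = -1 ∨ s l = 0 ∨ s l = 1) :
    |TT s p (fun q => if q = c then 1 else 0)| ≤ 3 := by
  have h := TT_abs (p := p) hs (g := fun q => if q = c then 1 else 0) (R := 1) fun q => by
    split_ifs <;> norm_num
  exact h

theorem key (hab : bl w a < bl w b) (hc : bl w c = bl w a + bl w b + 1)
    (hs : ∀ l, s l = -1 ∨ s l = 0 ∨ s l = 1) :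
    ((1 ≤ Vx w s p ∧ 1 ≤ Vz w a b c s p) ∨ (Vx w s p ≤ -1 ∧ Vz w a b c s p ≤ -1)) ∨
      (∀ g, TT s p g = 0) ∨
      ∃ i j k, In w (bl w a) (bl w b) i j k ∧
        ((∀ g, TT s p g = g i + g j - g k) ∨ ∀ g, TT s p g = -(g i + g j - g k)) ∧
        Vx w s p ≠ 0 ∧ (Vz w a b c s p ≠ 0 ∨ (i = a ∧ j = b ∧ k = c)) := by
  have hN : (1 : ℤ) ≤ 4 ^ n := pow4_pos n
  have r1 : |TT s p fun q => -(300 * 4 ^ n) + oo q| ≤ 3 * (401 * 4 ^ n) := by
    refine TT_abs hs fun q => ?_
    have h1 := oo_pos q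
    have h2 := oo_lt q
    rw [abs_le]
    constructor <;> omega
  have r2 : |TT s p fun q => -(300 * 4 ^ n) + oo q + ss w a b c q| ≤ 3 * (401 * 4 ^ n) := by
    refine TT_abs hs fun q => ?_
    have h1 := oo_pos q
    have h2 := oo_lt q
    have h3 := ss_le w a b c q
    have h4 := ss_ge w a b c q
    rw [abs_le]
    constructor <;> omega
  rw [abs_le] at r1 r2
  rcases lt_trichotomy (TT s p (uu w)) 0 with hU | hU | hU
  · refine Or.inl (Or.inr ?_)
    have h1 : (4 : ℤ) ^ n * TT s p (uu w) ≤ 4 ^ n * (-1) :=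
      mul_le_mul_of_nonneg_left (by omega) (by omega)
    unfold Vx Vz
    constructor <;> omega
  · rcases forms s p hs (uu w) (fun q => by unfold uu; omega) hU with h | ⟨i, j, hij, h⟩ |
      ⟨i, j, k, hijk, h⟩
    · exact Or.inr (Or.inl h)
    · have e1 : Vx w s p = oo i - oo j := by
        rw [Vx, hU, h]
        ring
      have e2 : Vz w a b c s p = oo i - oo j + (ss w a b c i - ss w a b c j) := by
        rw [Vz, hU, h]
        ring
      have hb : bl w i = bl w j := by
        unfold uu at hij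
        omega
      rcases lt_trichotomy i j with hlt | hlt | hlt
      · refine Or.inl (Or.inr ?_)
        have h1 := ss_mono w a b c hb hlt.le
        have h2 : 4 * oo i ≤ oo j := pow4_lt hlt
        have h3 := oo_pos i
        rw [e1, e2]
        constructor <;> omega
      · refine Or.inr (Or.inl fun g => ?_)
        rw [h, hlt, sub_self]
      · refine Or.inl (Or.inl ?_)
        have h1 := ss_mono w a b c hb.symm hlt.le
        have h2 : 4 * oo j ≤ oo i := pow4_lt hlt
        have h3 := oo_pos j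
        rw [e1, e2]
        constructor <;> omega
    · have hb : bl w i + bl w j + 1 = bl w k := by
        unfold uu at hijk
        omega
      have q1 := oo_pos i; have q2 := oo_pos j; have q3 := oo_pos k
      have q4 := oo_lt i; have q5 := oo_lt j; have q6 := oo_lt k
      have e1 : Vx w s p = -(300 * 4 ^ n) + (oo i + oo j - oo k) ∨
          Vx w s p = -(-(300 * 4 ^ n) + (oo i + oo j - oo k)) := by
        rcases h with h | h
        · left
          rw [Vx, hU, h]
          ring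
        · right
          rw [Vx, hU, h]
          ring
      by_cases h1 : bl w i = bl w a ∧ bl w j = bl w b
      · refine Or.inr (Or.inr ⟨i, j, k, ⟨h1.1, h1.2, by omega⟩, h, ?_, ?_⟩)
        · rcases e1 with e1 | e1 <;> omega
        · by_cases h2 : Vz w a b c s p = 0
          · right
            refine ss_zero hab hc h1.1 h1.2 (by omega) ?_
            rcases h with h | h
            · rw [Vz, hU, h] at h2
              linarith
            · rw [Vz, hU, h] at h2
              linarith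
          · exact Or.inl h2
      by_cases h1' : bl w i = bl w b ∧ bl w j = bl w a
      · refine Or.inr (Or.inr ⟨j, i, k, ⟨h1'.2, h1'.1, by omega⟩, ?_, ?_, ?_⟩)
        · rcases h with h | h
          · exact Or.inl fun g => by rw [h]; ring
          · exact Or.inr fun g => by rw [h]; ring
        · rcases e1 with e1 | e1 <;> omega
        · by_cases h2 : Vz w a b c s p = 0
          · right
            refine ss_zero hab hc h1'.2 h1'.1 (by omega) ?_
            rcases h with h | h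
            · rw [Vz, hU, h] at h2
              linarith
            · rw [Vz, hU, h] at h2
              linarith
          · exact Or.inl h2
      refine Or.inl ?_
      have h5 := ss_form hab hc hb h1 h1'
      rcases h with h | h
      · right
        have e1 : Vx w s p = -(300 * 4 ^ n) + (oo i + oo j - oo k) := by
          rw [Vx, hU, h]
          ring
        have e2 : Vz w a b c s p = -(300 * 4 ^ n) + (oo i + oo j - oo k) +
            (ss w a b c i + ss w a b c j - ss w a b c k) := by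
          rw [Vz, hU, h]
          ring
        constructor <;> omega
      · left
        have e1 : Vx w s p = -(-(300 * 4 ^ n) + (oo i + oo j - oo k)) := by
          rw [Vx, hU, h]
          ring
        have e2 : Vz w a b c s p = -(-(300 * 4 ^ n) + (oo i + oo j - oo k) +
            (ss w a b c i + ss w a b c j - ss w a b c k)) := by
          rw [Vz, hU, h]
          ring
        constructor <;> omega
  · refine Or.inl (Or.inl ?_)
    have h1 : (4 : ℤ) ^ n * 1 ≤ 4 ^ n * TT s p (uu w) :=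
      mul_le_mul_of_nonneg_left (by omega) (by omega)
    unfold Vx Vz
    constructor <;> omega

theorem same {L : Fin n → ℝ} (hL : ∀ u, L u = ∑ l, if p l = u then (s l : ℝ) else 0) {S : ℕ}
    {β : ℝ} (hβ : |β| < S) {v v' : Fin n → ℤ} {V V' t t' : ℤ} (hv : TT s p v = 8 * S * V + S * t)
    (hv' : TT s p v' = 8 * S * V' + S * t') (ht : |t| ≤ 3) (ht' : |t'| ≤ 3)
    (h : (1 ≤ V ∧ 1 ≤ V') ∨ (V ≤ -1 ∧ V' ≤ -1)) : out L β v = out L β v' := by
  rcases h with h | h
  · rw [out_pos hL hβ hv ht h.1, out_pos hL hβ hv' ht' h.2]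
  · rw [out_neg hL hβ hv ht h.1, out_neg hL hβ hv' ht' h.2]

theorem tri (hab : bl w a < bl w b) (hc : bl w c = bl w a + bl w b + 1) {L : Fin n → ℝ}
    (hT : ThreeTerms L) {S : ℕ} {β : ℝ} (hβ : |β| < S) :
    (out L β (yy w a b c S) = out L β (xx w S) ∧ out L β (zz w a b c S) = out L β (xx w S)) ∨
      ∃ i j k, IsForm L i j k ∧ In w (bl w a) (bl w b) i j k ∧
        (out L β (zz w a b c S) = out L β (yy w a b c S) ∨ (i = a ∧ j = b ∧ k = c)) := by
  obtain ⟨s, p, hs, hL⟩ := hT
  have hx := TT_xx (w := w) (s := s) (p := p) S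
  have hz := TT_zz (w := w) (a := a) (b := b) (c := c) (s := s) (p := p) S
  have hy := TT_yy (w := w) (a := a) (b := b) (c := c) (s := s) (p := p) S
  have ht := TT_ind (p := p) (c := c) hs
  have h0 : |(0 : ℤ)| ≤ 3 := by norm_num
  rcases key (p := p) hab hc hs with h | h | ⟨i, j, k, hI, h, -, h3⟩
  · refine Or.inl ⟨same hL hβ hy hx ht h0 ?_, same hL hβ hz hx h0 h0 ?_⟩
    · rcases h with h | h
      · exact Or.inl ⟨h.2, h.1⟩
      · exact Or.inr ⟨h.2, h.1⟩
    · rcases h with h | h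
      · exact Or.inl ⟨h.2, h.1⟩
      · exact Or.inr ⟨h.2, h.1⟩
  · refine Or.inl ⟨?_, ?_⟩
    · rw [out, out, val hL, val hL, h, h]
    · rw [out, out, val hL, val hL, h, h]
  · refine Or.inr ⟨i, j, k, ?_, hI, ?_⟩
    · rcases h with h | h
      · left
        intro u
        rw [coef hL, h]
        push_cast
        rfl
      · right
        intro u
        rw [coef hL, h]
        push_cast
        ring
    · rcases h3 with h3 | h3
      · left
        refine same hL hβ hz hy h0 ht ?_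
        rcases lt_or_gt_of_ne h3 with h4 | h4
        · exact Or.inr ⟨by omega, by omega⟩
        · exact Or.inl ⟨by omega, by omega⟩
      · exact Or.inr h3

theorem cancelS {S : ℕ} (hS : 1 ≤ S) {V t : ℤ} (h : 8 * (S : ℤ) * V + S * t = 0) (ht : |t| ≤ 3) :
    V = 0 ∧ t = 0 := by
  have h1 : (S : ℤ) * (8 * V + t) = 0 := by
    rw [← h]
    ring
  have h2 : 8 * V + t = 0 := by
    rcases mul_eq_zero.1 h1 with h2 | h2
    · omega
    · exact h2
  rw [abs_le] at ht
  omega

theorem pair_ne (hab : bl w a < bl w b) (hc : bl w c = bl w a + bl w b + 1) {i j : Fin n}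
    (hij : i ≠ j) : Vx w ![1, -1, 0] ![i, j, j] ≠ 0 ∧ Vz w a b c ![1, -1, 0] ![i, j, j] ≠ 0 := by
  have hs : ∀ l : Fin 3, (![1, -1, 0] : Fin 3 → ℤ) l = -1 ∨ (![1, -1, 0] : Fin 3 → ℤ) l = 0 ∨
      (![1, -1, 0] : Fin 3 → ℤ) l = 1 := by
    intro l
    fin_cases l <;> simp
  have hg : ∀ g : Fin n → ℤ, TT ![1, -1, 0] ![i, j, j] g = g i - g j := by
    intro g
    rw [TT_eq]
    simp
    ring
  rcases key (p := ![i, j, j]) hab hc hs with h | h | ⟨i', j', k', -, h, -⟩
  · rcases h with h | h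
    · exact ⟨by omega, by omega⟩
    · exact ⟨by omega, by omega⟩
  · exfalso
    have h1 := h fun q => if q = i then 1 else 0
    rw [hg, if_pos rfl, if_neg hij.symm] at h1
    omega
  · exfalso
    rcases h with h | h
    · have h1 := h fun _ => 1
      rw [hg] at h1
      omega
    · have h1 := h fun _ => 1
      rw [hg] at h1
      omega

theorem pair_TT {i j : Fin n} {v : Fin n → ℤ} (h : v i = v j) :
    TT ![1, -1, 0] ![i, j, j] v = 0 := by
  rw [TT_eq]
  simp
  omega

theorem pair_sign (l : Fin 3) : (![1, -1, 0] : Fin 3 → ℤ) l = -1 ∨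
    (![1, -1, 0] : Fin 3 → ℤ) l = 0 ∨ (![1, -1, 0] : Fin 3 → ℤ) l = 1 := by
  fin_cases l <;> simp

theorem inj (hab : bl w a < bl w b) (hc : bl w c = bl w a + bl w b + 1) {S : ℕ} (hS : 1 ≤ S) :
    Function.Injective (xx w S : Fin n → ℤ) ∧ Function.Injective (yy w a b c S) ∧
      Function.Injective (zz w a b c S) := by
  refine ⟨fun i j h => ?_, fun i j h => ?_, fun i j h => ?_⟩
  · by_contra hij
    have h1 := TT_xx (w := w) (s := ![1, -1, 0]) (p := ![i, j, j]) S
    rw [pair_TT h] at h1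
    exact (pair_ne hab hc hij).1 (cancelS hS h1.symm (by norm_num)).1
  · by_contra hij
    have h1 := TT_yy (w := w) (a := a) (b := b) (c := c) (s := ![1, -1, 0]) (p := ![i, j, j]) S
    rw [pair_TT h] at h1
    exact (pair_ne hab hc hij).2 (cancelS hS h1.symm (TT_ind pair_sign)).1
  · by_contra hij
    have h1 := TT_zz (w := w) (a := a) (b := b) (c := c) (s := ![1, -1, 0]) (p := ![i, j, j]) S
    rw [pair_TT h] at h1
    exact (pair_ne hab hc hij).2 (cancelS hS h1.symm (by norm_num)).1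

theorem tri_sign (l : Fin 3) : (![1, 1, -1] : Fin 3 → ℤ) l = -1 ∨
    (![1, 1, -1] : Fin 3 → ℤ) l = 0 ∨ (![1, 1, -1] : Fin 3 → ℤ) l = 1 := by
  fin_cases l <;> simp

theorem tri_TT (i j k : Fin n) (g : Fin n → ℤ) : TT ![1, 1, -1] ![i, j, k] g = g i + g j - g k := by
  rw [TT_eq]
  simp
  ring

theorem no_sum (hab : bl w a < bl w b) (hc : bl w c = bl w a + bl w b + 1) (i j k : Fin n) :
    Vx w ![1, 1, -1] ![i, j, k] ≠ 0 ∧ (Vz w a b c ![1, 1, -1] ![i, j, k] = 0 →
      TT ![1, 1, -1] ![i, j, k] (fun q => if q = c then 1 else 0) = -1) := by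
  rcases key (p := ![i, j, k]) hab hc tri_sign with h | h | ⟨i', j', k', hI, h, h1, h2⟩
  · rcases h with h | h
    · exact ⟨by omega, fun h1 => by omega⟩
    · exact ⟨by omega, fun h1 => by omega⟩
  · exfalso
    have h1 := h fun _ => 1
    rw [tri_TT] at h1
    omega
  · refine ⟨h1, fun h3 => ?_⟩
    rcases h2 with h2 | ⟨rfl, rfl, rfl⟩
    · exact absurd h3 h2
    · rcases h with h | h
      · rw [h, if_pos rfl, if_neg, if_neg]
        · norm_num
        · rintro rfl
          omega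
        · rintro rfl
          omega
      · exfalso
        have h4 := h fun _ => 1
        rw [tri_TT] at h4
        omega

theorem xx_no (hab : bl w a < bl w b) (hc : bl w c = bl w a + bl w b + 1) {S : ℕ} (hS : 1 ≤ S) :
    ¬ HasSum3 (xx w S : Fin n → ℤ) := by
  rintro ⟨i, j, k, -, -, -, h⟩
  have h1 := TT_xx (w := w) (s := ![1, 1, -1]) (p := ![i, j, k]) S
  rw [tri_TT, h, sub_self] at h1
  exact (no_sum hab hc i j k).1 (cancelS hS h1.symm (by norm_num)).1

theorem yy_no (hab : bl w a < bl w b) (hc : bl w c = bl w a + bl w b + 1) {S : ℕ} (hS : 1 ≤ S) :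
    ¬ HasSum3 (yy w a b c S) := by
  rintro ⟨i, j, k, -, -, -, h⟩
  have h1 := TT_yy (w := w) (a := a) (b := b) (c := c) (s := ![1, 1, -1]) (p := ![i, j, k]) S
  rw [tri_TT, h, sub_self] at h1
  have h2 := cancelS hS h1.symm (TT_ind tri_sign)
  have h3 := (no_sum hab hc i j k).2 h2.1
  rw [h2.2] at h3
  omega

theorem zz_yes (hab : bl w a < bl w b) (hc : bl w c = bl w a + bl w b + 1) (S : ℕ) :
    HasSum3 (zz w a b c S) := by
  refine ⟨a, b, c, ?_, ?_, ?_, ?_⟩
  · rintro rfl
    omega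
  · rintro rfl
    omega
  · rintro rfl
    omega
  · have e1 : ss w a b c a = 100 * 4 ^ n := by
      unfold ss
      rw [if_pos rfl, if_pos le_rfl]
    have e2 : ss w a b c b = 100 * 4 ^ n := by
      unfold ss
      rw [if_neg (by omega), if_pos rfl, if_pos le_rfl]
    have e3 : ss w a b c c = -(100 * 4 ^ n - (oo a + oo b - oo c)) := by
      unfold ss
      rw [if_neg (by omega), if_neg (by omega), if_pos rfl, if_pos le_rfl]
    unfold zz uu
    rw [e1, e2, e3, hc]
    push_cast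
    ring

end key

/-- the list `x` for `m = 0`, where no blocks are given: the lemma for two blocks is not available -/
theorem xx_zero {n : ℕ} : ∃ x : Fin n → ℤ, Function.Injective x ∧
    ¬ HasSum3 x := by
  refine ⟨fun p => 4 ^ p.1, fun i j h => Fin.ext (pow4_inj h), ?_⟩
  rintro ⟨i, j, k, hij, hik, hjk, h⟩
  have h' : (4 : ℤ) ^ i.1 + 4 ^ j.1 = 4 ^ k.1 := h
  have p1 := pow4_pos i.1
  have p2 := pow4_pos j.1
  have p3 := pow4_pos k.1
  rcases lt_trichotomy i.1 k.1 with h1 | h1 | h1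
  · rcases lt_trichotomy j.1 k.1 with h2 | h2 | h2
    · have := pow4_lt h1
      have := pow4_lt h2
      omega
    · exact hjk (Fin.ext h2)
    · have := pow4_lt h2
      omega
  · exact hik (Fin.ext h1)
  · have := pow4_lt h1
    omega

/-- **Module INST.** -/
theorem inst : INST := by
  intro n w m S hw hn hS
  by_cases hex : ∃ (a b c : Fin n) (A B : ℕ), A < m ∧ m ≤ B ∧ B < 2 * m ∧ In w A B a b c
  · obtain ⟨a, b, c, A, B, h1, h2, h3, h4, h5, h6⟩ := hex
    have hab : bl w a < bl w b := by omega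
    have hc : bl w c = bl w a + bl w b + 1 := by omega
    refine ⟨xx w S, (inj hab hc hS).1, xx_no hab hc hS, ?_⟩
    clear hab hc h1 h2 h3 h4 h5 h6 a b c A B
    intro A B h1 h2 h3 a b c hI
    obtain ⟨h4, h5, h6⟩ := hI
    have hab : bl w a < bl w b := by omega
    have hc : bl w c = bl w a + bl w b + 1 := by omega
    subst h4 h5
    refine ⟨yy w a b c S, zz w a b c S, (inj hab hc hS).2.1, (inj hab hc hS).2.2, yy_no hab hc hS,
      zz_yes hab hc S, fun L β hL hβ hno => ?_, fun L β hL hβ hno => ?_⟩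
    · rcases tri hab hc hL hβ with h | ⟨i, j, k, hF, hI, -⟩
      · exact h
      · exact absurd ⟨i, j, k, hF, hI⟩ hno
    · rcases tri hab hc hL hβ with h | ⟨i, j, k, hF, hI, h | ⟨rfl, rfl, rfl⟩⟩
      · rw [h.1, h.2]
      · exact h
      · exact absurd hF hno
  · obtain ⟨x, hx, hx'⟩ := xx_zero (n := n)
    refine ⟨x, hx, hx', fun A B h1 h2 h3 a b c hI => ?_⟩
    exact absurd ⟨a, b, c, A, B, h1, h2, h3, hI⟩ hex

end Pool.Agent.H83.TR
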