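import Mathlib
import Pool.Agent.H72.TR.Stm2
import Pool.Agent.H83.TR.Inst

/-!
# Module INST2: the instances for the lower bound of two rounds, with small numbers
-/

set_option autoImplicit false

namespace Pool.Agent.H83.TR.I2

open Finset Pool.Agent.K4H88.Ter Pool.Agent.K4H88.Rounds Pool.Agent.H72.TR

/-- the small part of `x` -/
def o2 {n : ℕ} (p : Fin n) : ℤ := (p.1 : ℤ)

theorem o2_nonneg {n : ℕ} (p : Fin n) : 0 ≤ o2 p := Int.natCast_nonneg _

theorem o2_lt {n : ℕ} (p : Fin n) : o2 p + 1 ≤ n := by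
  have := p.2
  unfold o2
  omega

theorem n_pos {n : ℕ} (p : Fin n) : 1 ≤ (n : ℤ) := by
  have := p.2
  omega

/-- the list `x` -/
def x2 {n : ℕ} (w S : ℕ) (p : Fin n) : ℤ := 8 * S * (100 * (n * uu w p) + (-(15 * n) + o2 p))

section shift

variable {n : ℕ} (w : ℕ) (a b c : Fin n)

/-- the shift -/
def s2 (p : Fin n) : ℤ :=
  if bl w p = bl w a then (if a ≤ p then 5 * n else 0)
  else if bl w p = bl w b then (if b ≤ p then 5 * n else 0)
  else if bl w p = bl w c then
    (if p ≤ c then -(5 * n - (o2 a + o2 b - o2 c)) else 0)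
  else 0

/-- the list `z` -/
def z2 (S : ℕ) (p : Fin n) : ℤ :=
  8 * S * (100 * (n * uu w p) + (-(15 * n) + o2 p + s2 w a b c p))

/-- the list `y` -/
def y2 (S : ℕ) (p : Fin n) : ℤ := z2 w a b c S p + S * (if p = c then 1 else 0)

theorem s2_le (p : Fin n) : s2 w a b c p ≤ 5 * n := by
  have h1 := o2_nonneg a; have h2 := o2_nonneg b; have h3 := o2_nonneg c
  have h4 := o2_lt a; have h5 := o2_lt b; have h6 := o2_lt c
  unfold s2
  split_ifs <;> omega

theorem s2_ge (p : Fin n) : -(7 * n) ≤ s2 w a b c p := by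
  have h1 := o2_nonneg a; have h2 := o2_nonneg b; have h3 := o2_nonneg c
  have h4 := o2_lt a; have h5 := o2_lt b; have h6 := o2_lt c
  unfold s2
  split_ifs <;> omega

theorem s2_nonpos {p : Fin n} (h1 : bl w p ≠ bl w a) (h2 : bl w p ≠ bl w b) :
    s2 w a b c p ≤ 0 := by
  have h1' := o2_nonneg a; have h2' := o2_nonneg b; have h3 := o2_nonneg c
  have h4 := o2_lt a; have h5 := o2_lt b; have h6 := o2_lt c
  unfold s2
  rw [if_neg h1, if_neg h2]
  split_ifs <;> omega

theorem s2_nonneg {p : Fin n} (h : bl w p ≠ bl w c) : 0 ≤ s2 w a b c p := by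
  have h1' := o2_nonneg a
  have h4 := o2_lt a
  unfold s2
  rw [if_neg h]
  split_ifs <;> omega

theorem s2_mono {p q : Fin n} (h : bl w p = bl w q) (hpq : p ≤ q) :
    s2 w a b c p ≤ s2 w a b c q := by
  have h1' := o2_nonneg a; have h2' := o2_nonneg b; have h3 := o2_nonneg c
  have h4 := o2_lt a; have h5 := o2_lt b; have h6 := o2_lt c
  have hpq' : p.1 ≤ q.1 := hpq
  unfold s2
  rw [h]
  simp only [Fin.le_def]
  split_ifs <;> omega

variable {w a b c}

theorem s2_form (hab : bl w a < bl w b) (hc : bl w c = bl w a + bl w b + 1) {i j k : Fin n}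
    (h : bl w i + bl w j + 1 = bl w k) (h1 : ¬ (bl w i = bl w a ∧ bl w j = bl w b))
    (h2 : ¬ (bl w i = bl w b ∧ bl w j = bl w a)) :
    s2 w a b c i + s2 w a b c j - s2 w a b c k ≤ 12 * n := by
  have e1 := s2_le w a b c i
  have e2 := s2_le w a b c j
  have e3 := s2_ge w a b c k
  have e4 := n_pos a
  by_cases hk : bl w k = bl w c
  · by_cases hi : bl w i = bl w a ∨ bl w i = bl w b
    · have h3 := s2_nonpos w a b c (p := j) (by omega) (by omega)
      omega
    · have h3 := s2_nonpos w a b c (p := i) (by omega) (by omega)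
      omega
  · have h3 := s2_nonneg w a b c hk
    omega

theorem s2_zero (hab : bl w a < bl w b) (hc : bl w c = bl w a + bl w b + 1) {i j k : Fin n}
    (h1 : bl w i = bl w a) (h2 : bl w j = bl w b) (h3 : bl w k = bl w c)
    (h : -(15 * (n : ℤ)) + (o2 i + o2 j - o2 k) + (s2 w a b c i + s2 w a b c j - s2 w a b c k) = 0) :
    i = a ∧ j = b ∧ k = c := by
  have p1 := o2_nonneg a; have p2 := o2_nonneg b; have p3 := o2_nonneg c
  have p4 := o2_lt a; have p5 := o2_lt b; have p6 := o2_lt c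
  have q1 := o2_nonneg i; have q2 := o2_nonneg j; have q3 := o2_nonneg k
  have q4 := o2_lt i; have q5 := o2_lt j; have q6 := o2_lt k
  have e1 : s2 w a b c i = if a ≤ i then 5 * (n : ℤ) else 0 := by
    unfold s2
    rw [if_pos h1]
  have e2 : s2 w a b c j = if b ≤ j then 5 * (n : ℤ) else 0 := by
    unfold s2
    rw [if_neg (by omega), if_pos h2]
  have e3 : s2 w a b c k = if k ≤ c then -(5 * n - (o2 a + o2 b - o2 c)) else 0 := by
    unfold s2
    rw [if_neg (by omega), if_neg (by omega), if_pos h3]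
  rw [e1, e2, e3] at h
  simp only [Fin.le_def] at h
  unfold o2 at h p1 p2 p3 p4 p5 p6 q1 q2 q3 q4 q5 q6
  have h4 : i.1 = a.1 ∧ j.1 = b.1 ∧ k.1 = c.1 := by
    split_ifs at h <;> omega
  exact ⟨Fin.ext h4.1, Fin.ext h4.2.1, Fin.ext h4.2.2⟩

end shift

/-! ## The key lemma -/

section key

variable {n : ℕ} {w : ℕ} {a b c : Fin n} {s : Fin 3 → ℤ} {p : Fin 3 → Fin n}

/-- the value at `x` is `8 S Vx` -/
def Vx (w : ℕ) (s : Fin 3 → ℤ) (p : Fin 3 → Fin n) : ℤ :=
  100 * ((n : ℤ) * TT s p (uu w)) + TT s p fun q => -(15 * (n : ℤ)) + o2 q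

/-- the value at `z` is `8 S Vz` -/
def Vz (w : ℕ) (a b c : Fin n) (s : Fin 3 → ℤ) (p : Fin 3 → Fin n) : ℤ :=
  100 * ((n : ℤ) * TT s p (uu w)) + TT s p fun q => -(15 * (n : ℤ)) + o2 q + s2 w a b c q

theorem TT_x2 (S : ℕ) : TT s p (x2 w S) = 8 * S * Vx w s p + S * 0 := by
  simp only [TT_eq, x2, Vx]
  ring

theorem TT_z2 (S : ℕ) : TT s p (z2 w a b c S) = 8 * S * Vz w a b c s p + S * 0 := by
  simp only [TT_eq, z2, Vz]
  ring

theorem TT_y2 (S : ℕ) : TT s p (y2 w a b c S) =
    8 * S * Vz w a b c s p + S * TT s p (fun q => if q = c then 1 else 0) := by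
  have h := TT_z2 (w := w) (a := a) (b := b) (c := c) (s := s) (p := p) S
  rw [mul_zero, add_zero] at h
  rw [← h]
  simp only [TT_eq, y2]
  ring

theorem TT_ind (hs : ∀ l, s l = -1 ∨ s l = 0 ∨ s l = 1) :
    |TT s p (fun q => if q = c then 1 else 0)| ≤ 3 := by
  have h := TT_abs (p := p) hs (g := fun q => if q = c then 1 else 0) (R := 1) fun q => by
    split_ifs <;> norm_num
  exact h

theorem key (hab : bl w a < bl w b) (hc : bl w c = bl w a + bl w b + 1)
    (hs : ∀ l, s l = -1 ∨ s l = 0 ∨ s l = 1) :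
    ((1 ≤ Vx w s p ∧ 1 ≤ Vz w a b c s p) ∨ (Vx w s p ≤ -1 ∧ Vz w a b c s p ≤ -1)) ∨
      (∀ g, TT s p g = 0) ∨
      ∃ i j k, In w (bl w a) (bl w b) i j k ∧
        ((∀ g, TT s p g = g i + g j - g k) ∨ ∀ g, TT s p g = -(g i + g j - g k)) ∧
        Vx w s p ≠ 0 ∧ (Vz w a b c s p ≠ 0 ∨ (i = a ∧ j = b ∧ k = c)) := by
  have hN := n_pos a
  have r1 : |TT s p fun q => -(15 * (n : ℤ)) + o2 q| ≤ 3 * (22 * (n : ℤ)) := by
    refine TT_abs hs fun q => ?_
    have h1 := o2_nonneg q
    have h2 := o2_lt q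
    rw [abs_le]
    constructor <;> omega
  have r2 : |TT s p fun q => -(15 * (n : ℤ)) + o2 q + s2 w a b c q| ≤ 3 * (22 * (n : ℤ)) := by
    refine TT_abs hs fun q => ?_
    have h1 := o2_nonneg q
    have h2 := o2_lt q
    have h3 := s2_le w a b c q
    have h4 := s2_ge w a b c q
    rw [abs_le]
    constructor <;> omega
  rw [abs_le] at r1 r2
  rcases lt_trichotomy (TT s p (uu w)) 0 with hU | hU | hU
  · refine Or.inl (Or.inr ?_)
    have h1 : (n : ℤ) * TT s p (uu w) ≤ n * (-1) :=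
      mul_le_mul_of_nonneg_left (by omega) (by omega)
    unfold Vx Vz
    constructor <;> omega
  · rcases forms s p hs (uu w) (fun q => by unfold uu; omega) hU with h | ⟨i, j, hij, h⟩ |
      ⟨i, j, k, hijk, h⟩
    · exact Or.inr (Or.inl h)
    · have e1 : Vx w s p = o2 i - o2 j := by
        rw [Vx, hU, h]
        ring
      have e2 : Vz w a b c s p = o2 i - o2 j + (s2 w a b c i - s2 w a b c j) := by
        rw [Vz, hU, h]
        ring
      have hb : bl w i = bl w j := by
        unfold uu at hij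
        omega
      rcases lt_trichotomy i j with hlt | hlt | hlt
      · refine Or.inl (Or.inr ?_)
        have h1 := s2_mono w a b c hb hlt.le
        have h2 : o2 i < o2 j := by
          unfold o2
          have : i.1 < j.1 := hlt
          omega
        rw [e1, e2]
        constructor <;> omega
      · refine Or.inr (Or.inl fun g => ?_)
        rw [h, hlt, sub_self]
      · refine Or.inl (Or.inl ?_)
        have h1 := s2_mono w a b c hb.symm hlt.le
        have h2 : o2 j < o2 i := by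
          unfold o2
          have : j.1 < i.1 := hlt
          omega
        rw [e1, e2]
        constructor <;> omega
    · have hb : bl w i + bl w j + 1 = bl w k := by
        unfold uu at hijk
        omega
      have q1 := o2_nonneg i; have q2 := o2_nonneg j; have q3 := o2_nonneg k
      have q4 := o2_lt i; have q5 := o2_lt j; have q6 := o2_lt k
      have e1 : Vx w s p = -(15 * (n : ℤ)) + (o2 i + o2 j - o2 k) ∨
          Vx w s p = -(-(15 * (n : ℤ)) + (o2 i + o2 j - o2 k)) := by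
        rcases h with h | h
        · left
          rw [Vx, hU, h]
          ring
        · right
          rw [Vx, hU, h]
          ring
      by_cases h1 : bl w i = bl w a ∧ bl w j = bl w b
      · refine Or.inr (Or.inr ⟨i, j, k, ⟨h1.1, h1.2, by omega⟩, h, ?_, ?_⟩)
        · rcases e1 with e1 | e1 <;> omega
        · by_cases h2 : Vz w a b c s p = 0
          · right
            refine s2_zero hab hc h1.1 h1.2 (by omega) ?_
            rcases h with h | h
            · rw [Vz, hU, h] at h2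
              linarith
            · rw [Vz, hU, h] at h2
              linarith
          · exact Or.inl h2
      by_cases h1' : bl w i = bl w b ∧ bl w j = bl w a
      · refine Or.inr (Or.inr ⟨j, i, k, ⟨h1'.2, h1'.1, by omega⟩, ?_, ?_, ?_⟩)
        · rcases h with h | h
          · exact Or.inl fun g => by rw [h]; ring
          · exact Or.inr fun g => by rw [h]; ring
        · rcases e1 with e1 | e1 <;> omega
        · by_cases h2 : Vz w a b c s p = 0
          · right
            refine s2_zero hab hc h1'.2 h1'.1 (by omega) ?_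
            rcases h with h | h
            · rw [Vz, hU, h] at h2
              linarith
            · rw [Vz, hU, h] at h2
              linarith
          · exact Or.inl h2
      refine Or.inl ?_
      have h5 := s2_form hab hc hb h1 h1'
      rcases h with h | h
      · right
        have e1 : Vx w s p = -(15 * (n : ℤ)) + (o2 i + o2 j - o2 k) := by
          rw [Vx, hU, h]
          ring
        have e2 : Vz w a b c s p = -(15 * (n : ℤ)) + (o2 i + o2 j - o2 k) +
            (s2 w a b c i + s2 w a b c j - s2 w a b c k) := by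
          rw [Vz, hU, h]
          ring
        constructor <;> omega
      · left
        have e1 : Vx w s p = -(-(15 * (n : ℤ)) + (o2 i + o2 j - o2 k)) := by
          rw [Vx, hU, h]
          ring
        have e2 : Vz w a b c s p = -(-(15 * (n : ℤ)) + (o2 i + o2 j - o2 k) +
            (s2 w a b c i + s2 w a b c j - s2 w a b c k)) := by
          rw [Vz, hU, h]
          ring
        constructor <;> omega
  · refine Or.inl (Or.inl ?_)
    have h1 : (n : ℤ) * 1 ≤ n * TT s p (uu w) :=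
      mul_le_mul_of_nonneg_left (by omega) (by omega)
    unfold Vx Vz
    constructor <;> omega

theorem same {L : Fin n → ℝ} (hL : ∀ u, L u = ∑ l, if p l = u then (s l : ℝ) else 0) {S : ℕ}
    {β : ℝ} (hβ : |β| < S) {v v' : Fin n → ℤ} {V V' t t' : ℤ} (hv : TT s p v = 8 * S * V + S * t)
    (hv' : TT s p v' = 8 * S * V' + S * t') (ht : |t| ≤ 3) (ht' : |t'| ≤ 3)
    (h : (1 ≤ V ∧ 1 ≤ V') ∨ (V ≤ -1 ∧ V' ≤ -1)) : out L β v = out L β v' := by
  rcases h with h | h
  · rw [out_pos hL hβ hv ht h.1, out_pos hL hβ hv' ht' h.2]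
  · rw [out_neg hL hβ hv ht h.1, out_neg hL hβ hv' ht' h.2]

theorem tri (hab : bl w a < bl w b) (hc : bl w c = bl w a + bl w b + 1) {L : Fin n → ℝ}
    (hT : ThreeTerms L) {S : ℕ} {β : ℝ} (hβ : |β| < S) :
    (out L β (y2 w a b c S) = out L β (x2 w S) ∧ out L β (z2 w a b c S) = out L β (x2 w S)) ∨
      ∃ i j k, IsForm L i j k ∧ In w (bl w a) (bl w b) i j k ∧
        (out L β (z2 w a b c S) = out L β (y2 w a b c S) ∨ (i = a ∧ j = b ∧ k = c)) := by
  obtain ⟨s, p, hs, hL⟩ := hT
  have hx := TT_x2 (w := w) (s := s) (p := p) S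
  have hz := TT_z2 (w := w) (a := a) (b := b) (c := c) (s := s) (p := p) S
  have hy := TT_y2 (w := w) (a := a) (b := b) (c := c) (s := s) (p := p) S
  have ht := TT_ind (p := p) (c := c) hs
  have h0 : |(0 : ℤ)| ≤ 3 := by norm_num
  rcases key (p := p) hab hc hs with h | h | ⟨i, j, k, hI, h, -, h3⟩
  · refine Or.inl ⟨same hL hβ hy hx ht h0 ?_, same hL hβ hz hx h0 h0 ?_⟩
    · rcases h with h | h
      · exact Or.inl ⟨h.2, h.1⟩
      · exact Or.inr ⟨h.2, h.1⟩
    · rcases h with h | h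
      · exact Or.inl ⟨h.2, h.1⟩
      · exact Or.inr ⟨h.2, h.1⟩
  · refine Or.inl ⟨?_, ?_⟩
    · rw [out, out, val hL, val hL, h, h]
    · rw [out, out, val hL, val hL, h, h]
  · refine Or.inr ⟨i, j, k, ?_, hI, ?_⟩
    · rcases h with h | h
      · left
        intro u
        rw [coef hL, h]
        push_cast
        rfl
      · right
        intro u
        rw [coef hL, h]
        push_cast
        ring
    · rcases h3 with h3 | h3
      · left
        refine same hL hβ hz hy h0 ht ?_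
        rcases lt_or_gt_of_ne h3 with h4 | h4
        · exact Or.inr ⟨by omega, by omega⟩
        · exact Or.inl ⟨by omega, by omega⟩
      · exact Or.inr h3

theorem cancelS {S : ℕ} (hS : 1 ≤ S) {V t : ℤ} (h : 8 * (S : ℤ) * V + S * t = 0) (ht : |t| ≤ 3) :
    V = 0 ∧ t = 0 := by
  have h1 : (S : ℤ) * (8 * V + t) = 0 := by
    rw [← h]
    ring
  have h2 : 8 * V + t = 0 := by
    rcases mul_eq_zero.1 h1 with h2 | h2
    · omega
    · exact h2
  rw [abs_le] at ht
  omega

theorem pair_ne (hab : bl w a < bl w b) (hc : bl w c = bl w a + bl w b + 1) {i j : Fin n}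
    (hij : i ≠ j) : Vx w ![1, -1, 0] ![i, j, j] ≠ 0 ∧ Vz w a b c ![1, -1, 0] ![i, j, j] ≠ 0 := by
  have hs : ∀ l : Fin 3, (![1, -1, 0] : Fin 3 → ℤ) l = -1 ∨ (![1, -1, 0] : Fin 3 → ℤ) l = 0 ∨
      (![1, -1, 0] : Fin 3 → ℤ) l = 1 := by
    intro l
    fin_cases l <;> simp
  have hg : ∀ g : Fin n → ℤ, TT ![1, -1, 0] ![i, j, j] g = g i - g j := by
    intro g
    rw [TT_eq]
    simp
    ring
  rcases key (p := ![i, j, j]) hab hc hs with h | h | ⟨i', j', k', -, h, -⟩
  · rcases h with h | h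
    · exact ⟨by omega, by omega⟩
    · exact ⟨by omega, by omega⟩
  · exfalso
    have h1 := h fun q => if q = i then 1 else 0
    rw [hg, if_pos rfl, if_neg hij.symm] at h1
    omega
  · exfalso
    rcases h with h | h
    · have h1 := h fun _ => 1
      rw [hg] at h1
      omega
    · have h1 := h fun _ => 1
      rw [hg] at h1
      omega

theorem pair_TT {i j : Fin n} {v : Fin n → ℤ} (h : v i = v j) :
    TT ![1, -1, 0] ![i, j, j] v = 0 := by
  rw [TT_eq]
  simp
  omega

theorem pair_sign (l : Fin 3) : (![1, -1, 0] : Fin 3 → ℤ) l = -1 ∨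
    (![1, -1, 0] : Fin 3 → ℤ) l = 0 ∨ (![1, -1, 0] : Fin 3 → ℤ) l = 1 := by
  fin_cases l <;> simp

theorem inj (hab : bl w a < bl w b) (hc : bl w c = bl w a + bl w b + 1) {S : ℕ} (hS : 1 ≤ S) :
    Function.Injective (x2 w S : Fin n → ℤ) ∧ Function.Injective (y2 w a b c S) ∧
      Function.Injective (z2 w a b c S) := by
  refine ⟨fun i j h => ?_, fun i j h => ?_, fun i j h => ?_⟩
  · by_contra hij
    have h1 := TT_x2 (w := w) (s := ![1, -1, 0]) (p := ![i, j, j]) S
    rw [pair_TT h] at h1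
    exact (pair_ne hab hc hij).1 (cancelS hS h1.symm (by norm_num)).1
  · by_contra hij
    have h1 := TT_y2 (w := w) (a := a) (b := b) (c := c) (s := ![1, -1, 0]) (p := ![i, j, j]) S
    rw [pair_TT h] at h1
    exact (pair_ne hab hc hij).2 (cancelS hS h1.symm (TT_ind pair_sign)).1
  · by_contra hij
    have h1 := TT_z2 (w := w) (a := a) (b := b) (c := c) (s := ![1, -1, 0]) (p := ![i, j, j]) S
    rw [pair_TT h] at h1
    exact (pair_ne hab hc hij).2 (cancelS hS h1.symm (by norm_num)).1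

theorem tri_sign (l : Fin 3) : (![1, 1, -1] : Fin 3 → ℤ) l = -1 ∨
    (![1, 1, -1] : Fin 3 → ℤ) l = 0 ∨ (![1, 1, -1] : Fin 3 → ℤ) l = 1 := by
  fin_cases l <;> simp

theorem tri_TT (i j k : Fin n) (g : Fin n → ℤ) : TT ![1, 1, -1] ![i, j, k] g = g i + g j - g k := by
  rw [TT_eq]
  simp
  ring

theorem no_sum (hab : bl w a < bl w b) (hc : bl w c = bl w a + bl w b + 1) (i j k : Fin n) :
    Vx w ![1, 1, -1] ![i, j, k] ≠ 0 ∧ (Vz w a b c ![1, 1, -1] ![i, j, k] = 0 →
      TT ![1, 1, -1] ![i, j, k] (fun q => if q = c then 1 else 0) = -1) := by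
  rcases key (p := ![i, j, k]) hab hc tri_sign with h | h | ⟨i', j', k', hI, h, h1, h2⟩
  · rcases h with h | h
    · exact ⟨by omega, fun h1 => by omega⟩
    · exact ⟨by omega, fun h1 => by omega⟩
  · exfalso
    have h1 := h fun _ => 1
    rw [tri_TT] at h1
    omega
  · refine ⟨h1, fun h3 => ?_⟩
    rcases h2 with h2 | ⟨rfl, rfl, rfl⟩
    · exact absurd h3 h2
    · rcases h with h | h
      · rw [h, if_pos rfl, if_neg, if_neg]
        · norm_num
        · rintro rfl
          omega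
        · rintro rfl
          omega
      · exfalso
        have h4 := h fun _ => 1
        rw [tri_TT] at h4
        omega

theorem xx_no (hab : bl w a < bl w b) (hc : bl w c = bl w a + bl w b + 1) {S : ℕ} (hS : 1 ≤ S) :
    ¬ HasSum3 (x2 w S : Fin n → ℤ) := by
  rintro ⟨i, j, k, -, -, -, h⟩
  have h1 := TT_x2 (w := w) (s := ![1, 1, -1]) (p := ![i, j, k]) S
  rw [tri_TT, h, sub_self] at h1
  exact (no_sum hab hc i j k).1 (cancelS hS h1.symm (by norm_num)).1

theorem yy_no (hab : bl w a < bl w b) (hc : bl w c = bl w a + bl w b + 1) {S : ℕ} (hS : 1 ≤ S) :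
    ¬ HasSum3 (y2 w a b c S) := by
  rintro ⟨i, j, k, -, -, -, h⟩
  have h1 := TT_y2 (w := w) (a := a) (b := b) (c := c) (s := ![1, 1, -1]) (p := ![i, j, k]) S
  rw [tri_TT, h, sub_self] at h1
  have h2 := cancelS hS h1.symm (TT_ind tri_sign)
  have h3 := (no_sum hab hc i j k).2 h2.1
  rw [h2.2] at h3
  omega

theorem zz_yes (hab : bl w a < bl w b) (hc : bl w c = bl w a + bl w b + 1) (S : ℕ) :
    HasSum3 (z2 w a b c S) := by
  refine ⟨a, b, c, ?_, ?_, ?_, ?_⟩
  · rintro rfl
    omega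
  · rintro rfl
    omega
  · rintro rfl
    omega
  · have e1 : s2 w a b c a = 5 * n := by
      unfold s2
      rw [if_pos rfl, if_pos le_rfl]
    have e2 : s2 w a b c b = 5 * n := by
      unfold s2
      rw [if_neg (by omega), if_pos rfl, if_pos le_rfl]
    have e3 : s2 w a b c c = -(5 * (n : ℤ) - (o2 a + o2 b - o2 c)) := by
      unfold s2
      rw [if_neg (by omega), if_neg (by omega), if_pos rfl, if_pos le_rfl]
    unfold z2 uu
    rw [e1, e2, e3, hc]
    push_cast
    ring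

end key

/-! ## The range -/

section range

variable {n : ℕ} {w : ℕ} {a b c : Fin n}

theorem uu_rng (w : ℕ) (p : Fin n) : 1 ≤ uu w p ∧ uu w p ≤ n := by
  have h1 : ((p.1 / w : ℕ) : ℤ) ≤ (p.1 : ℤ) := Int.ofNat_le.2 (Nat.div_le_self _ _)
  have h2 : (p.1 : ℤ) + 1 ≤ n := by
    have := p.2
    omega
  have h3 : (0 : ℤ) ≤ ((p.1 / w : ℕ) : ℤ) := Int.natCast_nonneg _
  unfold uu bl
  constructor
  · linarith
  · linarith

theorem rng_aux {S : ℕ} (hS : 1 ≤ S) (p : Fin n) {r t : ℤ} (h1 : -(22 * (n : ℤ)) ≤ r)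
    (h2 : r ≤ -(9 * (n : ℤ))) (ht0 : 0 ≤ t) (ht1 : t ≤ 1) :
    1 ≤ 8 * S * (100 * (n * uu w p) + r) + S * t ∧
      8 * S * (100 * (n * uu w p) + r) + S * t ≤ ((1000 * S * n ^ 2 : ℕ) : ℤ) := by
  obtain ⟨u1, u2⟩ := uu_rng w p
  have hn := n_pos p
  have hS' : (1 : ℤ) ≤ S := by exact_mod_cast hS
  have e1 : (n : ℤ) * 1 ≤ n * uu w p := mul_le_mul_of_nonneg_left u1 (by omega)
  have e2 : (n : ℤ) * uu w p ≤ n * n := mul_le_mul_of_nonneg_left u2 (by omega)
  set V : ℤ := 100 * (n * uu w p) + r with hV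
  have v1 : 1 ≤ V := by omega
  have v2 : V ≤ 100 * (n * n) - 1 := by omega
  have f1 : (S : ℤ) * 1 ≤ S * V := mul_le_mul_of_nonneg_left v1 (by omega)
  have f2 : (S : ℤ) * V ≤ S * (100 * (n * n) - 1) := mul_le_mul_of_nonneg_left v2 (by omega)
  have f3 : (S : ℤ) * t ≤ S * 1 := mul_le_mul_of_nonneg_left ht1 (by omega)
  have f4 : 0 ≤ (S : ℤ) * t := mul_nonneg (by omega) ht0
  have f5 : 0 ≤ (S : ℤ) * (n * n) := mul_nonneg (by omega) (mul_nonneg (by omega) (by omega))
  have g1 : 8 * (S : ℤ) * V = 8 * (S * V) := by ring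
  have g2 : (S : ℤ) * (100 * (n * n) - 1) = 100 * (S * (n * n)) - S := by ring
  have g3 : ((1000 * S * n ^ 2 : ℕ) : ℤ) = 1000 * (S * (n * n)) := by
    push_cast
    ring
  rw [g1, g3]
  rw [g2] at f2
  constructor <;> omega

theorem x2_rng {S : ℕ} (hS : 1 ≤ S) : Rng (1000 * S * n ^ 2) (x2 w S : Fin n → ℤ) := by
  intro p
  have h1 := o2_nonneg p
  have h2 := o2_lt p
  have h3 := n_pos p
  have h := rng_aux (w := w) hS p (r := -(15 * (n : ℤ)) + o2 p) (t := 0) (by omega) (by omega)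
    le_rfl (by norm_num)
  rw [mul_zero, add_zero] at h
  exact h

theorem z2_rng {S : ℕ} (hS : 1 ≤ S) : Rng (1000 * S * n ^ 2) (z2 w a b c S) := by
  intro p
  have h1 := o2_nonneg p
  have h2 := o2_lt p
  have h3 := s2_le w a b c p
  have h4 := s2_ge w a b c p
  have h := rng_aux (w := w) hS p (r := -(15 * (n : ℤ)) + o2 p + s2 w a b c p) (t := 0) (by omega)
    (by omega) le_rfl (by norm_num)
  rw [mul_zero, add_zero] at h
  exact h

theorem y2_rng {S : ℕ} (hS : 1 ≤ S) : Rng (1000 * S * n ^ 2) (y2 w a b c S) := by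
  intro p
  have h1 := o2_nonneg p
  have h2 := o2_lt p
  have h3 := s2_le w a b c p
  have h4 := s2_ge w a b c p
  exact rng_aux (w := w) hS p (r := -(15 * (n : ℤ)) + o2 p + s2 w a b c p)
    (t := if p = c then 1 else 0) (by omega) (by omega) (by split_ifs <;> norm_num)
    (by split_ifs <;> norm_num)

end range

/-- a list without solutions, if there are no triples -/
theorem x2_zero {n S : ℕ} (hn : 1 ≤ n) (hS : 1 ≤ S) : ∃ x : Fin n → ℤ, Function.Injective x ∧
    Rng (1000 * S * n ^ 2) x ∧ ¬ HasSum3 x := by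
  refine ⟨fun p => (n : ℤ) + p.1, fun i j h => ?_, fun p => ?_, ?_⟩
  · have h' : (n : ℤ) + i.1 = n + j.1 := h
    exact Fin.ext (by omega)
  · have hp := p.2
    have h1 : 2 * n ≤ 1000 * S * n ^ 2 := by
      nlinarith [Nat.mul_le_mul hS (Nat.pow_le_pow_left hn 2), Nat.mul_le_mul hn hn]
    have h2 : ((2 * n : ℕ) : ℤ) ≤ ((1000 * S * n ^ 2 : ℕ) : ℤ) := by exact_mod_cast h1
    constructor
    · change 1 ≤ (n : ℤ) + p.1
      omega
    · change (n : ℤ) + p.1 ≤ ((1000 * S * n ^ 2 : ℕ) : ℤ)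
      refine le_trans ?_ h2
      push_cast
      omega
  · rintro ⟨i, j, k, -, -, -, h⟩
    have h' : ((n : ℤ) + i.1) + (n + j.1) = n + k.1 := h
    have := k.2
    omega

end Pool.Agent.H83.TR.I2

namespace Pool.Agent.H83.TR

open Finset Pool.Agent.K4H88.Ter Pool.Agent.K4H88.Rounds Pool.Agent.H72.TR

/-- **Module INST2.** -/
theorem inst2 : INST2 := by
  intro n w m S hn hw hnw hS
  by_cases hex : ∃ t, t ∈ Tri n w m
  · obtain ⟨⟨a, b, c⟩, ht⟩ := hex
    have hT : ∀ a b c : Fin n, (a, b, c) ∈ Tri n w m →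
        bl w a < bl w b ∧ bl w c = bl w a + bl w b + 1 := by
      intro a b c ht
      rw [Tri, mem_filter] at ht
      obtain ⟨-, h1, h2, h3, h4⟩ := ht
      exact ⟨lt_of_lt_of_le h1 h2, h4⟩
    obtain ⟨hab, hc⟩ := hT a b c ht
    refine ⟨I2.x2 w S, (I2.inj hab hc hS).1, I2.x2_rng hS, I2.xx_no hab hc hS, ?_⟩
    clear hab hc ht a b c
    rintro ⟨a, b, c⟩ ht
    obtain ⟨hab, hc⟩ := hT a b c ht
    refine ⟨I2.y2 w a b c S, I2.z2 w a b c S,
      ⟨(I2.inj hab hc hS).2.1, I2.y2_rng hS, I2.yy_no hab hc hS⟩,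
      ⟨(I2.inj hab hc hS).2.2, I2.z2_rng hS, I2.zz_yes hab hc S⟩,
      fun L β hL hβ hno => ?_, fun L β hL hβ hno => ?_⟩
    · rcases I2.tri hab hc hL hβ with h | ⟨i, j, k, hF, hI, -⟩
      · exact h
      · exact absurd ⟨i, j, k, hF, hI⟩ hno
    · rcases I2.tri hab hc hL hβ with h | ⟨i, j, k, hF, hI, h | ⟨rfl, rfl, rfl⟩⟩
      · rw [h.1, h.2]
      · exact h
      · exact absurd hF hno
  · obtain ⟨x, hx, hx', hx''⟩ := I2.x2_zero (n := n) hn hS
    exact ⟨x, hx, hx', hx'', fun t ht => absurd ⟨t, ht⟩ hex⟩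

end Pool.Agent.H83.TR
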