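import Mathlib
import Pool.Agent.H72.TR.Stm4

/-!
# Module LEARN: few labels suffice to guess most of the labels, on average
-/

set_option autoImplicit false
set_option linter.unusedSectionVars false

namespace Pool.Agent.H83.TR.Ln

open Finset Pool.Agent.H72.TR

section

variable {X τ κ : Type} [Fintype X] [Fintype τ] [DecidableEq τ] (b : X → τ → Bool) (o : X → κ)
  (D : X → ℝ)

/-- the class of `x` -/
def cl (Q : Finset τ) (x : X) : κ × (τ → Bool) := (o x, mask Q (b x))

open Classical in
/-- the mass of the class of `x` -/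
noncomputable def ms (Q : Finset τ) (x : X) : ℝ :=
  ∑ x' ∈ univ.filter (fun x' => cl b o Q x' = cl b o Q x), D x'

/-- the potential -/
noncomputable def ph (Q : Finset τ) : ℝ := ∑ x, D x * (-Real.log (ms b o D Q x))

open Classical in
/-- the mass of the members of the class with a different label -/
noncomputable def df (Q : Finset τ) (t : τ) (x : X) : ℝ :=
  ∑ x' ∈ univ.filter (fun x' => cl b o Q x' = cl b o Q x ∧ b x' t ≠ b x t), D x'

variable {b o D}

theorem mask_insert {Q : Finset τ} {t : τ} {f g : τ → Bool} :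
    mask (insert t Q) f = mask (insert t Q) g ↔ mask Q f = mask Q g ∧ f t = g t := by
  constructor
  · intro h
    refine ⟨funext fun u => ?_, ?_⟩
    · have h1 := congrFun h u
      unfold mask at h1 ⊢
      by_cases hu : u ∈ Q
      · rw [if_pos (mem_insert_of_mem hu), if_pos (mem_insert_of_mem hu)] at h1
        rw [if_pos hu, if_pos hu, h1]
      · rw [if_neg hu, if_neg hu]
    · have h1 := congrFun h t
      unfold mask at h1
      rwa [if_pos (mem_insert_self t Q), if_pos (mem_insert_self t Q)] at h1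
  · rintro ⟨h1, h2⟩
    funext u
    unfold mask
    by_cases hu : u ∈ insert t Q
    · rw [if_pos hu, if_pos hu]
      rcases mem_insert.1 hu with rfl | hu'
      · exact h2
      · have h3 := congrFun h1 u
        unfold mask at h3
        rwa [if_pos hu', if_pos hu'] at h3
    · rw [if_neg hu, if_neg hu]

theorem cl_insert {Q : Finset τ} {t : τ} {x x' : X} :
    cl b o (insert t Q) x' = cl b o (insert t Q) x ↔ cl b o Q x' = cl b o Q x ∧ b x' t = b x t := by
  unfold cl
  rw [Prod.mk.injEq, Prod.mk.injEq, mask_insert, and_assoc]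

theorem ms_insert (Q : Finset τ) (t : τ) (x : X) :
    ms b o D (insert t Q) x = ms b o D Q x - df b o D Q t x := by
  classical
  unfold ms df
  rw [eq_sub_iff_add_eq]
  have h1 : univ.filter (fun x' => cl b o (insert t Q) x' = cl b o (insert t Q) x) =
      (univ.filter (fun x' => cl b o Q x' = cl b o Q x)).filter (fun x' => b x' t = b x t) := by
    ext x'
    rw [mem_filter, mem_filter, mem_filter, cl_insert]
    tauto
  have h2 : univ.filter (fun x' => cl b o Q x' = cl b o Q x ∧ b x' t ≠ b x t) =
      (univ.filter (fun x' => cl b o Q x' = cl b o Q x)).filter (fun x' => ¬ b x' t = b x t) := by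
    ext x'
    rw [mem_filter, mem_filter, mem_filter]
    tauto
  rw [h1, h2, sum_filter_add_sum_filter_not]

variable (hD : ∀ x, 0 ≤ D x)

include hD

theorem D_le_ms (Q : Finset τ) (x : X) : D x ≤ ms b o D Q x := by
  classical
  unfold ms
  exact single_le_sum (f := D) (fun x' _ => hD x') (mem_filter.2 ⟨mem_univ x, rfl⟩)

theorem df_nonneg (Q : Finset τ) (t : τ) (x : X) : 0 ≤ df b o D Q t x :=
  sum_nonneg fun x' _ => hD x'

theorem incr (Q : Finset τ) (t : τ) :
    ∑ x, D x * (df b o D Q t x / ms b o D Q x) ≤ ph b o D (insert t Q) - ph b o D Q := by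
  unfold ph
  rw [← sum_sub_distrib]
  refine sum_le_sum fun x _ => ?_
  rcases (hD x).eq_or_lt with h | h
  · rw [← h, zero_mul, zero_mul, zero_mul, sub_zero]
  · rw [← mul_sub]
    refine mul_le_mul_of_nonneg_left ?_ h.le
    have h1 : 0 < ms b o D Q x := h.trans_le (D_le_ms hD Q x)
    have h2 : 0 < ms b o D (insert t Q) x := h.trans_le (D_le_ms hD _ x)
    have h3 := Real.log_le_sub_one_of_pos (div_pos h2 h1)
    rw [Real.log_div h2.ne' h1.ne'] at h3
    have h4 : ms b o D (insert t Q) x / ms b o D Q x = 1 - df b o D Q t x / ms b o D Q x := by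
      rw [ms_insert, sub_div, div_self h1.ne']
    rw [h4] at h3
    linarith

variable (hD1 : ∑ x, D x = 1)

include hD1

theorem ph_nonneg (Q : Finset τ) : 0 ≤ ph b o D Q := by
  classical
  unfold ph
  refine sum_nonneg fun x _ => ?_
  rcases (hD x).eq_or_lt with h | h
  · rw [← h, zero_mul]
  · refine mul_nonneg h.le ?_
    have h1 : ms b o D Q x ≤ 1 := by
      rw [← hD1]
      unfold ms
      exact sum_le_sum_of_subset_of_nonneg (subset_univ _) fun x' _ _ => hD x'
    have h2 : 0 < ms b o D Q x := h.trans_le (D_le_ms hD Q x)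
    linarith [Real.log_nonpos h2.le h1]

open Classical in
theorem ratio_le {N : ℕ} (hN : (univ.image fun x => (o x, b x)).card ≤ N) (Q : Finset τ) :
    ∑ x, D x / ms b o D Q x ≤ N := by
  have h1 := sum_fiberwise_of_maps_to (s := (univ : Finset X)) (t := univ.image (cl b o Q))
    (g := cl b o Q) (fun x _ => mem_image_of_mem _ (mem_univ x)) (fun x => D x / ms b o D Q x)
  rw [← h1]
  have h2 : ∀ c ∈ univ.image (cl b o Q),
      ∑ x ∈ univ.filter (fun x => cl b o Q x = c), D x / ms b o D Q x ≤ 1 := by
    intro c _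
    have h3 : ∀ x ∈ univ.filter (fun x => cl b o Q x = c), D x / ms b o D Q x =
        D x / ∑ x' ∈ univ.filter (fun x' => cl b o Q x' = c), D x' := by
      intro x hx
      rw [mem_filter] at hx
      unfold ms
      rw [hx.2]
    rw [sum_congr rfl h3, ← sum_div]
    exact div_self_le_one _
  refine (sum_le_sum h2).trans ?_
  rw [sum_const, nsmul_eq_mul, mul_one]
  have h4 : univ.image (cl b o Q) = (univ.image fun x => (o x, b x)).image
      fun p : κ × (τ → Bool) => (p.1, mask Q p.2) := by
    rw [image_image]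
    rfl
  rw [h4]
  exact_mod_cast card_image_le.trans hN

open Classical in
theorem ph_le {N : ℕ} (hN : (univ.image fun x => (o x, b x)).card ≤ N) (hN1 : 1 ≤ N)
    (Q : Finset τ) : ph b o D Q ≤ Real.log N := by
  have hN0 : (0 : ℝ) < N := by exact_mod_cast hN1
  have h1 : ph b o D Q ≤ ∑ x, (D x * (Real.log N - 1) + (D x / ms b o D Q x) * (1 / N)) := by
    unfold ph
    refine sum_le_sum fun x _ => ?_
    rcases (hD x).eq_or_lt with h | h
    · rw [← h]
      simp
    · have h2 : 0 < ms b o D Q x := h.trans_le (D_le_ms hD Q x)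
      have h3 := Real.log_le_sub_one_of_pos (x := 1 / (N * ms b o D Q x)) (by positivity)
      rw [Real.log_div one_ne_zero (by positivity), Real.log_one,
        Real.log_mul hN0.ne' h2.ne'] at h3
      have h4 : -Real.log (ms b o D Q x) ≤ Real.log N - 1 + 1 / (N * ms b o D Q x) := by linarith
      calc D x * -Real.log (ms b o D Q x) ≤
          D x * (Real.log N - 1 + 1 / (N * ms b o D Q x)) := mul_le_mul_of_nonneg_left h4 h.le
        _ = D x * (Real.log N - 1) + (D x / ms b o D Q x) * (1 / N) := by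
          field_simp
  refine h1.trans ?_
  rw [sum_add_distrib, ← sum_mul, ← sum_mul, hD1, one_mul]
  have h5 := ratio_le hD hD1 hN Q
  have h6 : (∑ x, D x / ms b o D Q x) * (1 / (N : ℝ)) ≤ N * (1 / (N : ℝ)) :=
    mul_le_mul_of_nonneg_right h5 (by positivity)
  rw [mul_one_div_cancel hN0.ne'] at h6
  linarith

open Classical in
/-- the tests `Q` of the first round -/
theorem exists_Q {N T : ℕ} (hN : (univ.image fun x => (o x, b x)).card ≤ N) (hN1 : 1 ≤ N)
    (hT : 1 ≤ T) : ∃ Q : Finset τ, Q.card ≤ T ∧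
      ∀ t, ∑ x, D x * (df b o D Q t x / ms b o D Q x) ≤ Real.log N / T := by
  have hT0 : (0 : ℝ) < T := by exact_mod_cast hT
  have hlog : 0 ≤ Real.log N := Real.log_nonneg (by exact_mod_cast hN1)
  set lam : ℝ := Real.log N / T with hlam
  have hlam0 : 0 ≤ lam := div_nonneg hlog hT0.le
  obtain ⟨Q, hQ, hmax⟩ := exists_max_image (univ.filter fun Q : Finset τ => Q.card ≤ T)
    (fun Q => ph b o D Q - Q.card * lam) ⟨∅, mem_filter.2 ⟨mem_univ _, by simp⟩⟩
  rw [mem_filter] at hQ
  refine ⟨Q, hQ.2, fun t => (incr hD Q t).trans ?_⟩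
  by_cases ht : t ∈ Q
  · rw [insert_eq_of_mem ht, sub_self]
    exact hlam0
  · rcases hQ.2.eq_or_lt with h | h
    · have h1 := hmax ∅ (mem_filter.2 ⟨mem_univ _, by simp⟩)
      have h2 := ph_nonneg (b := b) (o := o) hD hD1 ∅
      have h3 := ph_le (b := b) (o := o) hD hD1 hN hN1 (insert t Q)
      simp only [card_empty, Nat.cast_zero, zero_mul, sub_zero] at h1
      rw [h] at h1
      have h4 : (T : ℝ) * lam = Real.log N := by
        rw [hlam]
        field_simp
      rw [h4] at h1
      linarith
    · have h1 := hmax (insert t Q) (mem_filter.2 ⟨mem_univ _, by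
        rw [card_insert_of_notMem ht]
        omega⟩)
      simp only [card_insert_of_notMem ht] at h1
      push_cast at h1
      linarith

end

end Pool.Agent.H83.TR.Ln

namespace Pool.Agent.H83.TR

open Finset Pool.Agent.H72.TR Ln

/-- **Module LEARN.** -/
theorem learn : LEARN := by
  classical
  intro X τ κ _ _ _ b o N T hT hN D hD hD1
  have hX : Nonempty X := by
    by_contra h
    rw [not_nonempty_iff] at h
    rw [univ_eq_empty, sum_empty] at hD1
    exact zero_ne_one hD1
  have hN1 : 1 ≤ N := by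
    refine le_trans ?_ hN
    rw [Nat.one_le_iff_ne_zero, ← Nat.pos_iff_ne_zero, card_pos]
    exact (univ_nonempty).image _
  obtain ⟨Q, hQ, hQt⟩ := exists_Q (b := b) (o := o) hD hD1 hN hN1 hT
  -- the best guess in a class
  have hg : ∀ c : κ × (τ → Bool), ∃ g : X, (∃ x, cl b o Q x = c) → cl b o Q g = c ∧
      ∀ x', cl b o Q x' = c →
        ∑ x ∈ univ.filter (fun x => cl b o Q x = c),
          D x * ((univ.filter fun t => b g t ≠ b x t).card : ℝ) ≤
        ∑ x ∈ univ.filter (fun x => cl b o Q x = c),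
          D x * ((univ.filter fun t => b x' t ≠ b x t).card : ℝ) := by
    intro c
    by_cases hc : ∃ x, cl b o Q x = c
    · obtain ⟨x0, hx0⟩ := hc
      obtain ⟨g, hg, hmin⟩ := exists_min_image (univ.filter fun x => cl b o Q x = c)
        (fun x' => ∑ x ∈ univ.filter (fun x => cl b o Q x = c),
          D x * ((univ.filter fun t => b x' t ≠ b x t).card : ℝ))
        ⟨x0, mem_filter.2 ⟨mem_univ _, hx0⟩⟩
      exact ⟨g, fun _ => ⟨(mem_filter.1 hg).2, fun x' hx' => hmin x' (mem_filter.2
        ⟨mem_univ _, hx'⟩)⟩⟩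
    · exact ⟨hX.some, fun h => absurd h hc⟩
  choose g hg using hg
  have hgx : ∀ x, cl b o Q (g (cl b o Q x)) = cl b o Q x := fun x => (hg _ ⟨x, rfl⟩).1
  refine ⟨Q, fun k m => g (k, m), hQ, fun x => ?_, ?_⟩
  · exact congrArg Prod.fst (hgx x)
  have h0 : ∀ x, g (o x, mask Q (b x)) = g (cl b o Q x) := fun x => rfl
  -- the error of the guess
  have hclass : ∀ c ∈ univ.image (cl b o Q),
      ∑ x ∈ univ.filter (fun x => cl b o Q x = c),
        D x * ((univ.filter fun t => b (g (cl b o Q x)) t ≠ b x t).card : ℝ) ≤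
      ∑ x ∈ univ.filter (fun x => cl b o Q x = c), ∑ x' ∈ univ.filter (fun x' => cl b o Q x' = c),
        D x * (D x' / ms b o D Q x) * ((univ.filter fun t => b x' t ≠ b x t).card : ℝ) := by
    intro c hc
    obtain ⟨x0, -, hx0⟩ := mem_image.1 hc
    set H := univ.filter (fun x => cl b o Q x = c) with hH
    have hmem : ∀ x ∈ H, cl b o Q x = c := fun x hx => (mem_filter.1 hx).2
    set M : ℝ := ∑ x ∈ H, D x with hM
    have hms : ∀ x ∈ H, ms b o D Q x = M := by
      intro x hx
      unfold ms
      rw [hmem x hx]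
    have e1 : ∑ x ∈ H, D x * ((univ.filter fun t => b (g (cl b o Q x)) t ≠ b x t).card : ℝ) =
        ∑ x ∈ H, D x * ((univ.filter fun t => b (g c) t ≠ b x t).card : ℝ) :=
      sum_congr rfl fun x hx => by rw [hmem x hx]
    rw [e1]
    have e2 : ∑ x ∈ H, ∑ x' ∈ H,
        D x * (D x' / ms b o D Q x) * ((univ.filter fun t => b x' t ≠ b x t).card : ℝ) =
        ∑ x' ∈ H, D x' / M * ∑ x ∈ H, D x * ((univ.filter fun t => b x' t ≠ b x t).card : ℝ) := by
      rw [sum_comm]
      refine sum_congr rfl fun x' _ => ?_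
      rw [mul_sum]
      refine sum_congr rfl fun x hx => ?_
      rw [hms x hx]
      ring
    rw [e2]
    have hM0 : 0 ≤ M := sum_nonneg fun x _ => hD x
    rcases hM0.eq_or_lt with hM1 | hM1
    · have h3 : ∀ x ∈ H, D x = 0 := (sum_eq_zero_iff_of_nonneg fun x _ => hD x).1 hM1.symm
      rw [sum_eq_zero fun x hx => by rw [h3 x hx, zero_mul]]
      exact sum_nonneg fun x' hx' => by rw [h3 x' hx', zero_div, zero_mul]
    · have h4 : ∀ x' ∈ H, D x' / M *
          ∑ x ∈ H, D x * ((univ.filter fun t => b (g c) t ≠ b x t).card : ℝ) ≤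
          D x' / M * ∑ x ∈ H, D x * ((univ.filter fun t => b x' t ≠ b x t).card : ℝ) :=
        fun x' hx' => mul_le_mul_of_nonneg_left ((hg c ⟨x0, hx0⟩).2 x' (hmem x' hx'))
          (div_nonneg (hD x') hM1.le)
      refine le_trans ?_ (sum_le_sum h4)
      rw [← sum_mul, ← sum_div, ← hM, div_self hM1.ne', one_mul]
  have hmap : ∀ x ∈ (univ : Finset X), cl b o Q x ∈ univ.image (cl b o Q) :=
    fun x _ => mem_image_of_mem _ (mem_univ x)
  have e3 : ∑ x, D x * ((univ.filter fun t => b (g (o x, mask Q (b x))) t ≠ b x t).card : ℝ) ≤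
      ∑ x, ∑ x' ∈ univ.filter (fun x' => cl b o Q x' = cl b o Q x),
        D x * (D x' / ms b o D Q x) * ((univ.filter fun t => b x' t ≠ b x t).card : ℝ) := by
    have e4 := sum_fiberwise_of_maps_to hmap (fun x =>
      D x * ((univ.filter fun t => b (g (cl b o Q x)) t ≠ b x t).card : ℝ))
    have e5 := sum_fiberwise_of_maps_to hmap (fun x =>
      ∑ x' ∈ univ.filter (fun x' => cl b o Q x' = cl b o Q x),
        D x * (D x' / ms b o D Q x) * ((univ.filter fun t => b x' t ≠ b x t).card : ℝ))
    simp only [h0]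
    rw [← e4, ← e5]
    refine sum_le_sum fun c hc => (hclass c hc).trans (le_of_eq ?_)
    refine sum_congr rfl fun x hx => ?_
    rw [(mem_filter.1 hx).2]
  refine e3.trans ?_
  -- exchange of the sums
  have e6 : ∑ x, ∑ x' ∈ univ.filter (fun x' => cl b o Q x' = cl b o Q x),
        D x * (D x' / ms b o D Q x) * ((univ.filter fun t => b x' t ≠ b x t).card : ℝ) =
      ∑ t, ∑ x, D x * (df b o D Q t x / ms b o D Q x) := by
    rw [sum_comm]
    refine sum_congr rfl fun x _ => ?_
    rw [← mul_sum, ← sum_div]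
    have e7 : ∑ t, df b o D Q t x = ∑ x' ∈ univ.filter (fun x' => cl b o Q x' = cl b o Q x),
        D x' * ((univ.filter fun t => b x' t ≠ b x t).card : ℝ) := by
      have e8 : ∀ t, df b o D Q t x = ∑ x' ∈ univ.filter (fun x' => cl b o Q x' = cl b o Q x),
          if b x' t ≠ b x t then D x' else 0 := by
        intro t
        unfold df
        rw [← sum_filter, filter_filter]
      rw [sum_congr rfl fun t _ => e8 t, sum_comm]
      refine sum_congr rfl fun x' _ => ?_
      rw [← sum_filter, sum_const, nsmul_eq_mul, mul_comm]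
    rw [e7, sum_div, mul_sum]
    refine sum_congr rfl fun x' _ => ?_
    ring
  rw [e6]
  refine (sum_le_sum fun t _ => hQt t).trans (le_of_eq ?_)
  rw [sum_const, nsmul_eq_mul, card_univ]
  ring

end Pool.Agent.H83.TR
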