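import Pool.Agent.H72.TR.Stm5
import Pool.Agent.H83.TR.Learn

/-!
# Module LEARN5: two rounds of learning
-/

set_option autoImplicit false
set_option linter.unusedSectionVars false

namespace Pool.Agent.H83.TR.L5

open Finset Pool.Agent.H72.TR

section pairs

theorem mf {α : Type} {p : α → Prop} {inst : DecidablePred p} {s : Finset α} {a : α} :
    a ∈ @Finset.filter α p inst s ↔ a ∈ s ∧ p a := Finset.mem_filter

open Classical in
/-- the class of `x` in `S` -/
noncomputable def cf {X κ' : Type} (S : Finset X) (K : X → κ') (x : X) : Finset X :=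
  S.filter (fun x' => K x' = K x)

theorem mem_cf {X κ' : Type} {S : Finset X} {K : X → κ'} {x x' : X} :
    x' ∈ cf S K x ↔ x' ∈ S ∧ K x' = K x := mf

open Classical in
/-- the fibre -/
noncomputable def fb {X κ' : Type} [Fintype X] (K : X → κ') (c : κ') : Finset X :=
  univ.filter (fun x => K x = c)

theorem mem_fb {X κ' : Type} [Fintype X] {K : X → κ'} {c : κ'} {x : X} :
    x ∈ fb K c ↔ K x = c := by
  unfold fb
  rw [mf]
  exact ⟨fun h => h.2, fun h => ⟨mem_univ _, h⟩⟩

open Classical in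
theorem sum_fb {X κ' : Type} [Fintype X] (K : X → κ') :
    ∃ I : Finset κ', ∀ f : X → ℝ, ∑ x, f x = ∑ c ∈ I, ∑ x ∈ fb K c, f x := by
  refine ⟨univ.image K, fun f => ?_⟩
  unfold fb
  exact (sum_fiberwise_of_maps_to (fun x _ => mem_image_of_mem K (mem_univ x)) f).symm

/-- the mass of the class of `x` in `S` -/
noncomputable def mm {X κ' : Type} (D : X → ℝ) (S : Finset X) (K : X → κ') (x : X) : ℝ :=
  ∑ x' ∈ cf S K x, D x'

/-- the sum over the pairs of the same class -/
noncomputable def PP {X κ' : Type} (D : X → ℝ) (S : Finset X) (K : X → κ') (f : X → X → ℝ) : ℝ :=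
  ∑ x ∈ S, ∑ x' ∈ cf S K x, D x * (D x' / mm D S K x) * f x' x

variable {X κ' : Type} {D : X → ℝ} {S : Finset X} {K : X → κ'}

theorem PP_add (f g : X → X → ℝ) :
    PP D S K (fun x' x => f x' x + g x' x) = PP D S K f + PP D S K g := by
  unfold PP
  simp only [mul_add, sum_add_distrib]

theorem PP_smul (c : ℝ) (f : X → X → ℝ) :
    PP D S K (fun x' x => c * f x' x) = c * PP D S K f := by
  unfold PP
  simp only [mul_sum]
  exact sum_congr rfl fun x _ => sum_congr rfl fun x' _ => by ring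

theorem PP_sum {σ : Type} (A : Finset σ) (f : σ → X → X → ℝ) :
    PP D S K (fun x' x => ∑ t ∈ A, f t x' x) = ∑ t ∈ A, PP D S K (f t) := by
  unfold PP
  rw [sum_comm]
  refine sum_congr rfl fun x _ => ?_
  rw [sum_comm]
  refine sum_congr rfl fun x' _ => ?_
  rw [mul_sum]

theorem PP_symm (f : X → X → ℝ) : PP D S K f = PP D S K (fun x' x => f x x') := by
  classical
  unfold PP cf
  simp only [sum_filter]
  rw [sum_comm]
  refine sum_congr rfl fun x _ => sum_congr rfl fun x' _ => ?_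
  by_cases hK : K x' = K x
  · rw [if_pos hK, if_pos hK.symm]
    have h1 : mm D S K x' = mm D S K x := by
      unfold mm cf
      rw [hK]
    rw [h1]
    ring
  · rw [if_neg hK, if_neg (fun h => hK h.symm)]

variable (hD : ∀ x, 0 ≤ D x)

include hD

theorem mm_nonneg (x : X) : 0 ≤ mm D S K x := sum_nonneg fun x' _ => hD x'

theorem PP_mono {f g : X → X → ℝ} (h : ∀ x ∈ S, ∀ x' ∈ S, f x' x ≤ g x' x) :
    PP D S K f ≤ PP D S K g := by
  classical
  unfold PP
  exact sum_le_sum fun x hx => sum_le_sum fun x' hx' => mul_le_mul_of_nonneg_left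
    (h x hx x' (mem_cf.1 hx').1) (mul_nonneg (hD x) (div_nonneg (hD x') (mm_nonneg hD x)))

theorem PP_fst (h : X → ℝ) (h0 : ∀ x, 0 ≤ h x) :
    PP D S K (fun _ x => h x) ≤ ∑ x ∈ S, D x * h x := by
  classical
  unfold PP
  refine sum_le_sum fun x hx => ?_
  have e : ∑ x' ∈ cf S K x, D x * (D x' / mm D S K x) * h x =
      D x * h x * (mm D S K x / mm D S K x) := by
    have e1 : mm D S K x / mm D S K x = ∑ x' ∈ cf S K x, D x' / mm D S K x := by
      rw [← sum_div]
      rfl
    rw [e1, mul_sum]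
    exact sum_congr rfl fun x' _ => by ring
  rw [e]
  calc _ ≤ D x * h x * 1 :=
        mul_le_mul_of_nonneg_left (div_self_le_one _) (mul_nonneg (hD x) (h0 x))
    _ = _ := mul_one _

theorem PP_snd (h : X → ℝ) (h0 : ∀ x, 0 ≤ h x) :
    PP D S K (fun x' _ => h x') ≤ ∑ x ∈ S, D x * h x := by
  rw [PP_symm]
  exact PP_fst hD h h0

end pairs

/-- the mass of a chain of sets -/
theorem aty {X τ : Type} {D : X → ℝ} (hD : ∀ x, 0 ≤ D x) (S : Finset X) (b : X → τ → Bool)
    (A : Finset τ) (v : Bool) (C : ℝ) (hC : 0 ≤ C)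
    (hn : ∀ x ∈ S, ∀ x' ∈ S, (∀ t ∈ A, b x t = true → b x' t = true) ∨
      (∀ t ∈ A, b x' t = true → b x t = true))
    (hA : ∀ t ∈ A, ∑ x ∈ S.filter (fun x => b x t = v), D x ≤ C) :
    ∑ x ∈ S.filter (fun x => ∃ t ∈ A, b x t = v), D x ≤ C := by
  classical
  rcases A.eq_empty_or_nonempty with h | h
  · subst h
    have h1 : S.filter (fun x => ∃ t ∈ (∅ : Finset τ), b x t = v) = ∅ := by
      apply filter_eq_empty_iff.2
      rintro x _ ⟨t, ht, _⟩
      exact absurd ht (notMem_empty t)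
    rw [h1, sum_empty]
    exact hC
  · obtain ⟨t₀, ht₀, hmax⟩ := exists_max_image A
      (fun t => (S.filter (fun x => b x t = v)).card) h
    refine (sum_le_sum_of_subset_of_nonneg ?_ fun x _ _ => hD x).trans (hA t₀ ht₀)
    intro x hx
    rw [mem_filter] at hx ⊢
    obtain ⟨hxS, t, ht, hxt⟩ := hx
    refine ⟨hxS, ?_⟩
    by_contra hne
    have hss : S.filter (fun x => b x t₀ = v) ⊂ S.filter (fun x => b x t = v) := by
      rw [ssubset_iff_of_subset]
      · exact ⟨x, mem_filter.2 ⟨hxS, hxt⟩, fun h => hne (mem_filter.1 h).2⟩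
      · intro y hy
        rw [mem_filter] at hy ⊢
        refine ⟨hy.1, ?_⟩
        by_contra hyt
        have h2 := hn x hxS y hy.1
        cases v with
        | true =>
          rcases h2 with h1 | h1
          · exact hyt (h1 t ht hxt)
          · exact hne (h1 t₀ ht₀ hy.2)
        | false =>
          rw [Bool.not_eq_false] at hne hyt
          rcases h2 with h1 | h1
          · have h3 := h1 t₀ ht₀ hne
            rw [hy.2] at h3
            exact absurd h3 (by decide)
          · have h3 := h1 t ht hyt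
            rw [hxt] at h3
            exact absurd h3 (by decide)
    exact absurd (hmax t ht) (not_le.2 (card_lt_card hss))

/-- a light test has a typical value -/
theorem light {X : Type} {D : X → ℝ} (hD : ∀ x, 0 ≤ D x) (S : Finset X) (f : X → Bool) (θ : ℝ)
    (h : ∑ x ∈ S, D x * ((∑ x' ∈ S.filter (fun x' => f x' ≠ f x), D x') / ∑ x ∈ S, D x) <
      θ * ∑ x ∈ S, D x) :
    ∑ x ∈ S.filter (fun x => f x = true), D x ≤ θ * ∑ x ∈ S, D x ∨
      ∑ x ∈ S.filter (fun x => f x = false), D x ≤ θ * ∑ x ∈ S, D x := by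
  classical
  obtain ⟨M, hM⟩ : ∃ M, M = ∑ x ∈ S, D x := ⟨_, rfl⟩
  obtain ⟨p, hp⟩ : ∃ p, p = ∑ x ∈ S.filter (fun x => f x = true), D x := ⟨_, rfl⟩
  obtain ⟨q, hq⟩ : ∃ q, q = ∑ x ∈ S.filter (fun x => f x = false), D x := ⟨_, rfl⟩
  rw [← hM] at h
  rw [← hM, ← hp, ← hq]
  have hM0 : 0 ≤ M := hM ▸ sum_nonneg fun x _ => hD x
  have hp0 : 0 ≤ p := hp ▸ sum_nonneg fun x _ => hD x
  have hq0 : 0 ≤ q := hq ▸ sum_nonneg fun x _ => hD x
  have hfil : S.filter (fun x => ¬ f x = true) = S.filter (fun x => f x = false) := by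
    ext x
    rw [mem_filter, mem_filter, Bool.not_eq_true]
  have hfil' : S.filter (fun x => ¬ f x = false) = S.filter (fun x => f x = true) := by
    ext x
    rw [mem_filter, mem_filter, Bool.not_eq_false]
  have hpq : p + q = M := by
    rw [hp, hq, hM, ← hfil]
    exact sum_filter_add_sum_filter_not _ _ _
  have e : ∑ x ∈ S, D x * ((∑ x' ∈ S.filter (fun x' => f x' ≠ f x), D x') / M) =
      p * (q / M) + q * (p / M) := by
    rw [← sum_filter_add_sum_filter_not S (fun x => f x = true)]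
    congr 1
    · rw [hp, sum_mul]
      refine sum_congr rfl fun x hx => ?_
      rw [(mem_filter.1 hx).2, hq, ← hfil]
    · rw [hfil, hq, sum_mul]
      refine sum_congr rfl fun x hx => ?_
      rw [(mem_filter.1 hx).2, hp, ← hfil']
  rw [e] at h
  rcases hM0.eq_or_lt with h0 | h0
  · exfalso
    rw [← h0] at h
    simp at h
  · by_contra hcon
    rw [not_or, not_le, not_le] at hcon
    obtain ⟨h1, h2⟩ := hcon
    have h3 : (p * (q / M) + q * (p / M)) * M = 2 * p * q := by
      field_simp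
      ring
    have h4 : 2 * p * q < θ * M * M := by
      rw [← h3]
      exact mul_lt_mul_of_pos_right h h0
    rcases le_total p q with h5 | h5
    · have h6 : M ≤ 2 * q := by linarith
      have h7 : θ * M * M ≤ p * (2 * q) := mul_le_mul h1.le h6 h0.le hp0
      linarith
    · have h6 : M ≤ 2 * p := by linarith
      have h7 : θ * M * M ≤ q * (2 * p) := mul_le_mul h2.le h6 h0.le hq0
      linarith

open Classical in
/-- the best guess in every class -/
theorem guess {X κ' : Type} [Fintype X] [Nonempty X] {D : X → ℝ} (hD : ∀ x, 0 ≤ D x)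
    (K : X → κ') (loss : X → X → ℝ) : ∃ G : κ' → X, (∀ x, K (G (K x)) = K x) ∧
      ∑ x, D x * loss (G (K x)) x ≤ PP D univ K loss := by
  have hg : ∀ c : κ', ∃ g : X, (∃ x, K x = c) → K g = c ∧
      ∀ x', K x' = c →
        ∑ x ∈ univ.filter (fun x => K x = c), D x * loss g x ≤
        ∑ x ∈ univ.filter (fun x => K x = c), D x * loss x' x := by
    intro c
    by_cases hc : ∃ x, K x = c
    · obtain ⟨x0, hx0⟩ := hc
      obtain ⟨g, hg, hmin⟩ := exists_min_image (univ.filter fun x => K x = c)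
        (fun x' => ∑ x ∈ univ.filter (fun x => K x = c), D x * loss x' x)
        ⟨x0, mem_filter.2 ⟨mem_univ _, hx0⟩⟩
      exact ⟨g, fun _ => ⟨(mem_filter.1 hg).2, fun x' hx' => hmin x' (mem_filter.2
        ⟨mem_univ _, hx'⟩)⟩⟩
    · exact ⟨Classical.arbitrary X, fun h => absurd h hc⟩
  choose g hg using hg
  refine ⟨g, fun x => (hg _ ⟨x, rfl⟩).1, ?_⟩
  have hmap : ∀ x ∈ (univ : Finset X), K x ∈ univ.image K :=
    fun x _ => mem_image_of_mem _ (mem_univ x)
  unfold PP
  rw [← sum_fiberwise_of_maps_to hmap, ← sum_fiberwise_of_maps_to hmap]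
  refine sum_le_sum fun c hc => ?_
  obtain ⟨x0, -, hx0⟩ := mem_image.1 hc
  obtain ⟨H, hH⟩ : ∃ H : Finset X, H = univ.filter (fun x => K x = c) := ⟨_, rfl⟩
  have hmem : ∀ x ∈ H, K x = c := fun x hx => by
    rw [hH] at hx
    exact (mem_filter.1 hx).2
  rw [← hH]
  have hcf : ∀ x ∈ H, cf univ K x = H := by
    intro x hx
    unfold cf
    rw [hmem x hx, ← hH]
  have hmm : ∀ x ∈ H, mm D univ K x = ∑ x ∈ H, D x := by
    intro x hx
    unfold mm
    rw [hcf x hx]
  have e1 : ∑ x ∈ H, D x * loss (g (K x)) x = ∑ x ∈ H, D x * loss (g c) x :=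
    sum_congr rfl fun x hx => by rw [hmem x hx]
  have e2 : ∑ x ∈ H, ∑ x' ∈ cf univ K x,
        D x * (D x' / mm D univ K x) * loss x' x =
        ∑ x' ∈ H, D x' / (∑ x ∈ H, D x) * ∑ x ∈ H, D x * loss x' x := by
    have e3 : ∀ x ∈ H, ∑ x' ∈ cf univ K x,
        D x * (D x' / mm D univ K x) * loss x' x =
        ∑ x' ∈ H, D x * (D x' / (∑ x ∈ H, D x)) * loss x' x := by
      intro x hx
      rw [hmm x hx, hcf x hx]
    rw [sum_congr rfl e3, sum_comm]
    refine sum_congr rfl fun x' _ => ?_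
    rw [mul_sum]
    exact sum_congr rfl fun x _ => by ring
  rw [e1, e2]
  obtain ⟨M, hM⟩ : ∃ M, M = ∑ x ∈ H, D x := ⟨_, rfl⟩
  rw [← hM]
  have hM0 : 0 ≤ M := hM ▸ sum_nonneg fun x _ => hD x
  rcases hM0.eq_or_lt with hM1 | hM1
  · have h3 : ∀ x ∈ H, D x = 0 :=
      (sum_eq_zero_iff_of_nonneg fun x _ => hD x).1 (hM.symm.trans hM1.symm)
    rw [sum_eq_zero fun x hx => by rw [h3 x hx, zero_mul]]
    exact (sum_eq_zero fun x' hx' => by rw [h3 x' hx', zero_div, zero_mul]).ge
  · have h4 : ∀ x' ∈ H, D x' / M * ∑ x ∈ H, D x * loss (g c) x ≤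
        D x' / M * ∑ x ∈ H, D x * loss x' x := fun x' hx' =>
      mul_le_mul_of_nonneg_left (by
        have := (hg c ⟨x0, hx0⟩).2 x' (hmem x' hx')
        rwa [← hH] at this) (div_nonneg (hD x') hM1.le)
    refine le_trans ?_ (sum_le_sum h4)
    rw [← sum_mul, ← sum_div, ← hM, div_self hM1.ne', one_mul]

open Classical in
/-- the pairs of a class -/
theorem perclass {X τ ι κ' : Type} [Fintype τ] [Fintype ι] (row : τ → ι) (b : X → τ → Bool)
    {D : X → ℝ} (hD : ∀ x, 0 ≤ D x) (S : Finset X) (K : X → κ') (θ α β lam M : ℝ)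
    (hM : M = ∑ x ∈ S, D x) (hθ : 0 < θ) (hα : 0 ≤ α) (hβ : 0 ≤ β)
    (hn : ∀ x ∈ S, ∀ x' ∈ S, ∀ i, (∀ t, row t = i → b x t = true → b x' t = true) ∨
      (∀ t, row t = i → b x' t = true → b x t = true))
    (h2 : ∀ t, PP D S K (fun x' x => if b x' t ≠ b x t then 1 else 0) ≤ lam * M)
    (Hv : Finset τ) (hHv : ∀ t, t ∉ Hv →
      ∑ x ∈ S, D x * ((∑ x' ∈ S.filter (fun x' => b x' t ≠ b x t), D x') / M) < θ * M) :
    PP D S K (fun x' x => α * ((univ.filter fun t => b x' t ≠ b x t).card : ℝ) +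
        β * (wr row (b x') (b x) : ℝ)) ≤
      α * (Fintype.card τ * (lam * M)) +
        β * (4 * θ * Fintype.card ι * M + Hv.card * (lam * M)) := by
  have hM0 : 0 ≤ M := hM ▸ sum_nonneg fun x _ => hD x
  obtain ⟨w, hw⟩ : ∃ w : τ → X → X → ℝ, w = fun t x' x => if b x' t ≠ b x t then 1 else 0 :=
    ⟨_, rfl⟩
  have hw0 : ∀ t x' x, 0 ≤ w t x' x := by
    intro t x' x
    rw [hw]
    dsimp only
    split_ifs <;> norm_num
  have hw2 : ∀ t, PP D S K (w t) ≤ lam * M := by
    intro t
    rw [hw]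
    exact h2 t
  obtain ⟨L1, hL1⟩ : ∃ L1 : ι → Finset τ, L1 = fun i => univ.filter fun t =>
    row t = i ∧ ∑ x ∈ S.filter (fun x => b x t = false), D x ≤ θ * M := ⟨_, rfl⟩
  obtain ⟨L2, hL2⟩ : ∃ L2 : ι → Finset τ, L2 = fun i => univ.filter fun t =>
    row t = i ∧ ∑ x ∈ S.filter (fun x => b x t = true), D x ≤ θ * M := ⟨_, rfl⟩
  have mL1 : ∀ i t, t ∈ L1 i ↔ row t = i ∧ ∑ x ∈ S.filter (fun x => b x t = false), D x ≤ θ * M := by
    intro i t
    rw [hL1]
    simp only [mem_filter, mem_univ, true_and]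
  have mL2 : ∀ i t, t ∈ L2 i ↔ row t = i ∧ ∑ x ∈ S.filter (fun x => b x t = true), D x ≤ θ * M := by
    intro i t
    rw [hL2]
    simp only [mem_filter, mem_univ, true_and]
  obtain ⟨a1, ha1⟩ : ∃ a1 : ι → X → ℝ, a1 = fun i x =>
    if ∃ t ∈ L1 i, b x t = false then 1 else 0 := ⟨_, rfl⟩
  obtain ⟨a2, ha2⟩ : ∃ a2 : ι → X → ℝ, a2 = fun i x =>
    if ∃ t ∈ L2 i, b x t = true then 1 else 0 := ⟨_, rfl⟩
  have a10 : ∀ i x, 0 ≤ a1 i x := by
    intro i x
    rw [ha1]
    dsimp only
    split_ifs <;> norm_num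
  have a20 : ∀ i x, 0 ≤ a2 i x := by
    intro i x
    rw [ha2]
    dsimp only
    split_ifs <;> norm_num
  have a11 : ∀ i x t, t ∈ L1 i → b x t = false → a1 i x = 1 := by
    intro i x t h1 h2
    rw [ha1]
    exact if_pos ⟨t, h1, h2⟩
  have a21 : ∀ i x t, t ∈ L2 i → b x t = true → a2 i x = 1 := by
    intro i x t h1 h2
    rw [ha2]
    exact if_pos ⟨t, h1, h2⟩
  obtain ⟨u, hu⟩ : ∃ u : X → ℝ, u = fun x => ∑ i, (a1 i x + a2 i x) := ⟨_, rfl⟩
  have hu0 : ∀ x, 0 ≤ u x := by
    intro x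
    rw [hu]
    exact sum_nonneg fun i _ => add_nonneg (a10 i x) (a20 i x)
  -- the mass of the atypical members
  have hmass : ∑ x ∈ S, D x * u x ≤ 2 * θ * Fintype.card ι * M := by
    have e1 : ∑ x ∈ S, D x * u x = ∑ i : ι, (∑ x ∈ S, D x * a1 i x + ∑ x ∈ S, D x * a2 i x) := by
      rw [hu]
      simp only [mul_sum, mul_add, sum_add_distrib]
      rw [sum_comm, sum_comm (s := S)]
    rw [e1]
    have e2 : ∀ i ∈ (univ : Finset ι),
        ∑ x ∈ S, D x * a1 i x + ∑ x ∈ S, D x * a2 i x ≤ 2 * (θ * M) := by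
      intro i _
      have e3 : ∑ x ∈ S, D x * a1 i x ≤ θ * M := by
        have e4 : ∑ x ∈ S, D x * a1 i x =
            ∑ x ∈ S.filter (fun x => ∃ t ∈ L1 i, b x t = false), D x := by
          rw [sum_filter, ha1]
          refine sum_congr rfl fun x _ => ?_
          rw [mul_ite, mul_one, mul_zero]
        rw [e4]
        refine aty hD S b (L1 i) false _ (mul_nonneg hθ.le hM0) ?_ ?_
        · intro x hx x' hx'
          rcases hn x hx x' hx' i with h | h
          · exact Or.inl fun t ht => h t ((mL1 i t).1 ht).1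
          · exact Or.inr fun t ht => h t ((mL1 i t).1 ht).1
        · exact fun t ht => ((mL1 i t).1 ht).2
      have e5 : ∑ x ∈ S, D x * a2 i x ≤ θ * M := by
        have e4 : ∑ x ∈ S, D x * a2 i x =
            ∑ x ∈ S.filter (fun x => ∃ t ∈ L2 i, b x t = true), D x := by
          rw [sum_filter, ha2]
          refine sum_congr rfl fun x _ => ?_
          rw [mul_ite, mul_one, mul_zero]
        rw [e4]
        refine aty hD S b (L2 i) true _ (mul_nonneg hθ.le hM0) ?_ ?_
        · intro x hx x' hx'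
          rcases hn x hx x' hx' i with h | h
          · exact Or.inl fun t ht => h t ((mL2 i t).1 ht).1
          · exact Or.inr fun t ht => h t ((mL2 i t).1 ht).1
        · exact fun t ht => ((mL2 i t).1 ht).2
      linarith
    refine (sum_le_sum e2).trans (le_of_eq ?_)
    rw [sum_const, nsmul_eq_mul, card_univ]
    ring
  -- a wrong row
  have hpt : ∀ x ∈ S, ∀ x' ∈ S, (wr row (b x') (b x) : ℝ) ≤
      (u x + u x') + ∑ t ∈ Hv, w t x' x := by
    intro x hx x' hx'
    have e1 : (wr row (b x') (b x) : ℝ) =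
        ∑ i : ι, if ∃ t, row t = i ∧ b x' t ≠ b x t then (1 : ℝ) else 0 := by
      unfold wr
      rw [← sum_filter, sum_const, nsmul_eq_mul, mul_one]
      exact congrArg (fun s : Finset ι => (s.card : ℝ)) (Finset.filter_congr_decidable _ _ _)
    have e2 : ∑ t ∈ Hv, w t x' x = ∑ i : ι, ∑ t ∈ Hv.filter (fun t => row t = i), w t x' x :=
      (sum_fiberwise Hv row fun t => w t x' x).symm
    have e3 : (u x + u x') + ∑ t ∈ Hv, w t x' x = ∑ i : ι, (((a1 i x + a2 i x) +
        (a1 i x' + a2 i x')) + ∑ t ∈ Hv.filter (fun t => row t = i), w t x' x) := by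
      rw [sum_add_distrib, sum_add_distrib, ← e2, hu]
    rw [e1, e3]
    refine sum_le_sum fun i _ => ?_
    have q1 := a10 i x
    have q2 := a20 i x
    have q3 := a10 i x'
    have q4 := a20 i x'
    have q5 : 0 ≤ ∑ t ∈ Hv.filter (fun t => row t = i), w t x' x :=
      sum_nonneg fun t _ => hw0 t x' x
    by_cases hex : ∃ t, row t = i ∧ b x' t ≠ b x t
    · rw [if_pos hex]
      obtain ⟨t, hti, hbt⟩ := hex
      by_cases htH : t ∈ Hv
      · have q6 : w t x' x ≤ ∑ t ∈ Hv.filter (fun t => row t = i), w t x' x :=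
          single_le_sum (f := fun t => w t x' x) (fun t _ => hw0 t x' x)
            (mem_filter.2 ⟨htH, hti⟩)
        have q7 : w t x' x = 1 := by
          rw [hw]
          exact if_pos hbt
        linarith
      · have q8 := hHv t htH
        rw [hM] at q8
        rcases light hD S (fun x => b x t) θ q8 with q9 | q9
        · have q10 : t ∈ L2 i := (mL2 i t).2 ⟨hti, by rw [hM]; exact q9⟩
          by_cases h1 : b x t = true
          · have := a21 i x t q10 h1
            linarith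
          · have h2 : b x' t = true := by
              by_contra h3
              rw [Bool.not_eq_true] at h1 h3
              exact hbt (h3.trans h1.symm)
            have := a21 i x' t q10 h2
            linarith
        · have q10 : t ∈ L1 i := (mL1 i t).2 ⟨hti, by rw [hM]; exact q9⟩
          by_cases h1 : b x t = false
          · have := a11 i x t q10 h1
            linarith
          · have h2 : b x' t = false := by
              by_contra h3
              rw [Bool.not_eq_false] at h1 h3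
              exact hbt (h3.trans h1.symm)
            have := a11 i x' t q10 h2
            linarith
    · rw [if_neg hex]
      linarith
  -- the two parts
  have hA : PP D S K (fun x' x => ((univ.filter fun t => b x' t ≠ b x t).card : ℝ)) ≤
      Fintype.card τ * (lam * M) := by
    have e1 : (fun x' x => ((univ.filter fun t => b x' t ≠ b x t).card : ℝ)) =
        fun x' x => ∑ t ∈ (univ : Finset τ), w t x' x := by
      funext x' x
      rw [hw, ← sum_filter, sum_const, nsmul_eq_mul, mul_one]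
    rw [e1, PP_sum]
    refine (sum_le_sum fun t _ => hw2 t).trans (le_of_eq ?_)
    rw [sum_const, nsmul_eq_mul, card_univ]
  have hB : PP D S K (fun x' x => (wr row (b x') (b x) : ℝ)) ≤
      4 * θ * Fintype.card ι * M + Hv.card * (lam * M) := by
    have e1 : PP D S K (fun x' x => (wr row (b x') (b x) : ℝ)) ≤
        PP D S K (fun x' x => (u x + u x') + ∑ t ∈ Hv, w t x' x) := PP_mono hD hpt
    have e2 : PP D S K (fun x' x => (u x + u x') + ∑ t ∈ Hv, w t x' x) =
        (PP D S K (fun x' x => u x) + PP D S K (fun x' x => u x')) +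
          ∑ t ∈ Hv, PP D S K (w t) := by
      rw [← PP_sum, ← PP_add, ← PP_add]
    have e3 := PP_fst (S := S) (K := K) hD u hu0
    have e4 := PP_snd (S := S) (K := K) hD u hu0
    have e5 : ∑ t ∈ Hv, PP D S K (w t) ≤ Hv.card * (lam * M) := by
      refine (sum_le_sum fun t _ => hw2 t).trans (le_of_eq ?_)
      rw [sum_const, nsmul_eq_mul]
    rw [e2] at e1
    linarith
  have e6 : PP D S K (fun x' x => α * ((univ.filter fun t => b x' t ≠ b x t).card : ℝ) +
        β * (wr row (b x') (b x) : ℝ)) =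
      α * PP D S K (fun x' x => ((univ.filter fun t => b x' t ≠ b x t).card : ℝ)) +
        β * PP D S K (fun x' x => (wr row (b x') (b x) : ℝ)) := by
    rw [← PP_smul, ← PP_smul, ← PP_add]
  rw [e6]
  exact add_le_add (mul_le_mul_of_nonneg_left hA hα) (mul_le_mul_of_nonneg_left hB hβ)

section glue

open Ln

variable {X τ κ : Type} [Fintype X] [Fintype τ] [DecidableEq τ] {b : X → τ → Bool} {o : X → κ}
  {D : X → ℝ}

open Classical in
/-- the second round in a class of the first -/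
theorem exists_Q2 (hD : ∀ x, 0 ≤ D x) {N T : ℕ}
    (hN : (univ.image fun x => (o x, b x)).card ≤ N) (hN1 : 1 ≤ N) (hT : 1 ≤ T) (Q1 : Finset τ)
    (c : κ × (τ → Bool)) : ∃ Q : Finset τ, Q.card ≤ T ∧
      ∀ t, ∑ x ∈ fb (cl b o Q1) c,
        D x * (df b (cl b o Q1) D Q t x / ms b (cl b o Q1) D Q x) ≤
        Real.log N / T * ∑ x ∈ fb (cl b o Q1) c, D x := by
  obtain ⟨S, hS⟩ : ∃ S : Finset X, S = fb (cl b o Q1) c := ⟨_, rfl⟩
  obtain ⟨M, hM⟩ : ∃ M, M = ∑ x ∈ S, D x := ⟨_, rfl⟩
  have hSm : ∀ x, x ∈ S ↔ cl b o Q1 x = c := by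
    intro x
    rw [hS, mem_fb]
  rw [← hS, ← hM]
  have hM0 : 0 ≤ M := hM ▸ sum_nonneg fun x _ => hD x
  rcases hM0.eq_or_lt with h0 | h0
  · refine ⟨∅, by simp, fun t => ?_⟩
    rw [← h0, mul_zero]
    have h3 : ∀ x ∈ S, D x = 0 :=
      (sum_eq_zero_iff_of_nonneg fun x _ => hD x).1 (hM.symm.trans h0.symm)
    exact (sum_eq_zero fun x hx => by rw [h3 x hx, zero_mul]).le
  · obtain ⟨E, hE⟩ : ∃ E : X → ℝ, E = fun x => if x ∈ S then D x / M else 0 := ⟨_, rfl⟩
    have hE0 : ∀ x, 0 ≤ E x := by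
      intro x
      rw [hE]
      dsimp only
      split_ifs
      · exact div_nonneg (hD x) hM0
      · exact le_rfl
    have hE1 : ∀ x ∈ S, E x = D x / M := by
      intro x hx
      rw [hE]
      exact if_pos hx
    have hE2 : ∀ x, x ∉ S → E x = 0 := by
      intro x hx
      rw [hE]
      exact if_neg hx
    have hsub : ∀ f : X → ℝ, (∀ x, x ∉ S → f x = 0) → ∑ x, f x = ∑ x ∈ S, f x := by
      intro f hf
      exact (sum_subset (subset_univ S) fun x _ hx => hf x hx).symm
    have hEs : ∑ x, E x = 1 := by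
      rw [hsub E hE2, sum_congr rfl hE1, ← sum_div, ← hM, div_self h0.ne']
    have hN' : ∀ inst : DecidableEq ((κ × (τ → Bool)) × (τ → Bool)),
        (@image _ _ inst (fun x => (cl b o Q1 x, b x)) univ).card ≤ N := by
      intro inst
      have e : @image _ _ inst (fun x => (cl b o Q1 x, b x)) univ = @image _ _ inst
          (fun p : κ × (τ → Bool) => ((p.1, mask Q1 p.2), p.2))
          (univ.image fun x => (o x, b x)) := by
        rw [image_image]
        rfl
      rw [e]
      exact card_image_le.trans hN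
    obtain ⟨Q, hQ, hQt⟩ := exists_Q (b := b) (o := cl b o Q1) hE0 hEs (hN' _) hN1 hT
    refine ⟨Q, hQ, fun t => ?_⟩
    have h1 := hQt t
    have e1 : ∑ x, E x * (df b (cl b o Q1) E Q t x / ms b (cl b o Q1) E Q x) =
        (∑ x ∈ S, D x * (df b (cl b o Q1) D Q t x / ms b (cl b o Q1) D Q x)) / M := by
      rw [hsub _ fun x hx => by rw [hE2 x hx, zero_mul], sum_div]
      refine sum_congr rfl fun x hx => ?_
      have e2 : df b (cl b o Q1) E Q t x = df b (cl b o Q1) D Q t x / M := by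
        unfold df
        rw [sum_div]
        refine sum_congr rfl fun x' hx' => ?_
        have hx'' := (mf.1 hx').2.1
        exact hE1 x' ((hSm x').2 ((congrArg Prod.fst hx'').trans ((hSm x).1 hx)))
      have e3 : ms b (cl b o Q1) E Q x = ms b (cl b o Q1) D Q x / M := by
        unfold ms
        rw [sum_div]
        refine sum_congr rfl fun x' hx' => ?_
        have hx'' := (mf.1 hx').2
        exact hE1 x' ((hSm x').2 ((congrArg Prod.fst hx'').trans ((hSm x).1 hx)))
      rw [hE1 x hx, e2, e3, div_div_div_cancel_right₀ h0.ne', div_mul_eq_mul_div]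
    rw [e1, div_le_iff₀ h0] at h1
    exact h1

end glue

end Pool.Agent.H83.TR.L5

namespace Pool.Agent.H83.TR

open Finset Pool.Agent.H72.TR Ln L5

/-- **Module LEARN5.** -/
theorem learn5 : LEARN5 := by
  classical
  intro X τ ι κ _ _ _ _ row b o N T θ α β hT hθ hα hβ hn hN D hD hD1
  have hX : Nonempty X := by
    by_contra h
    rw [not_nonempty_iff] at h
    rw [univ_eq_empty, sum_empty] at hD1
    exact zero_ne_one hD1
  have hN1 : 1 ≤ N := by
    refine le_trans ?_ hN
    rw [Nat.one_le_iff_ne_zero, ← Nat.pos_iff_ne_zero, card_pos]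
    exact (univ_nonempty).image _
  obtain ⟨Q1, hQ1, hQ1t⟩ := exists_Q (b := b) (o := o) hD hD1 hN hN1 hT
  choose Q2 hQ2 hQ2t using fun c => exists_Q2 (b := b) (o := o) hD hN hN1 hT Q1 c
  obtain ⟨K, hK⟩ : ∃ K : X → (κ × (τ → Bool)) × (τ → Bool),
    K = fun x => (cl b o Q1 x, mask (Q2 (cl b o Q1 x)) (b x)) := ⟨_, rfl⟩
  obtain ⟨G, hG1, hG2⟩ := guess hD K (fun x' x =>
    α * ((univ.filter fun t => b x' t ≠ b x t).card : ℝ) + β * (wr row (b x') (b x) : ℝ))
  refine ⟨Q1, fun k l => Q2 (k, l), fun k l l' => G ((k, l), l'), fun x => G (K x), ?_, hQ1,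
    fun k l => hQ2 _, ?_, ?_⟩
  · intro x
    rw [hK]
    rfl
  · intro x
    have h1 := hG1 x
    rw [hK] at h1
    have h2 := congrArg (fun p : (κ × (τ → Bool)) × (τ → Bool) => p.1.1) h1
    rw [hK]
    exact h2
  refine hG2.trans ?_
  obtain ⟨lam, hlam⟩ : ∃ lam : ℝ, lam = Real.log N / T := ⟨_, rfl⟩
  rw [← hlam] at hQ1t ⊢
  rw [← hlam] at hQ2t
  have hT0 : (0 : ℝ) < T := by exact_mod_cast hT
  have hlam0 : 0 ≤ lam := by
    rw [hlam]
    exact div_nonneg (Real.log_nonneg (by exact_mod_cast hN1)) hT0.le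
  obtain ⟨I, hsum⟩ := sum_fb (cl b o Q1)
  obtain ⟨cls, hcls⟩ : ∃ cls : (κ × (τ → Bool)) → Finset X, cls = fun c => fb (cl b o Q1) c :=
    ⟨_, rfl⟩
  have hcls' : ∀ c, fb (cl b o Q1) c = cls c := fun c => by rw [hcls]
  have hcm : ∀ c x, x ∈ cls c ↔ cl b o Q1 x = c := by
    intro c x
    rw [← hcls', mem_fb]
  simp only [hcls'] at hQ2t hsum
  obtain ⟨M, hM⟩ : ∃ M : κ × (τ → Bool) → ℝ, M = fun c => ∑ x ∈ cls c, D x := ⟨_, rfl⟩
  have hM' : ∀ c, M c = ∑ x ∈ cls c, D x := fun c => by rw [hM]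
  have hM0 : ∀ c, 0 ≤ M c := fun c => (hM' c) ▸ sum_nonneg fun x _ => hD x
  simp only [← hM'] at hQ2t
  have hMs : ∑ c ∈ I, M c = 1 := by
    rw [← hD1, hsum, hM]
  have hfil : ∀ c, ∀ x ∈ cls c, ∀ x', K x' = K x → x' ∈ cls c := by
    intro c x hx x' h
    rw [hK] at h
    exact (hcm c x').2 ((congrArg Prod.fst h).trans ((hcm c x).1 hx))
  have hcf : ∀ c, ∀ x ∈ cls c, cf univ K x = cf (cls c) K x := by
    intro c x hx
    ext x'
    rw [mem_cf, mem_cf]
    exact ⟨fun h => ⟨hfil c x hx x' h.2, h.2⟩, fun h => ⟨mem_univ _, h.2⟩⟩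
  have hPP : ∀ f, PP D univ K f = ∑ c ∈ I, PP D (cls c) K f := by
    intro f
    unfold PP
    rw [hsum]
    refine sum_congr rfl fun c _ => sum_congr rfl fun x hx => ?_
    have e : mm D univ K x = mm D (cls c) K x := by
      unfold mm
      rw [hcf c x hx]
    rw [e, hcf c x hx]
  have hKc : ∀ c, ∀ x ∈ cls c, ∀ x', K x' = K x ↔
      cl b (cl b o Q1) (Q2 c) x' = cl b (cl b o Q1) (Q2 c) x := by
    intro c x hx x'
    have hxc := (hcm c x).1 hx
    rw [hK]
    constructor
    · intro h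
      have h1 : cl b o Q1 x' = cl b o Q1 x := congrArg Prod.fst h
      have h2 : mask (Q2 (cl b o Q1 x')) (b x') = mask (Q2 (cl b o Q1 x)) (b x) :=
        congrArg Prod.snd h
      rw [h1, hxc] at h2
      exact Prod.ext h1 h2
    · intro h
      have h1 : cl b o Q1 x' = cl b o Q1 x := congrArg Prod.fst h
      have h2 : mask (Q2 c) (b x') = mask (Q2 c) (b x) := congrArg Prod.snd h
      refine Prod.ext h1 ?_
      change mask (Q2 (cl b o Q1 x')) (b x') = mask (Q2 (cl b o Q1 x)) (b x)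
      rw [h1, hxc]
      exact h2
  -- the second round
  have h2 : ∀ c t, PP D (cls c) K (fun x' x => if b x' t ≠ b x t then 1 else 0) ≤ lam * M c := by
    intro c t
    refine le_trans (le_of_eq ?_) (hQ2t c t)
    unfold PP
    refine sum_congr rfl fun x hx => ?_
    have e1 : mm D (cls c) K x = ms b (cl b o Q1) D (Q2 c) x := by
      unfold mm ms
      refine sum_congr (Finset.ext fun x' => ?_) fun _ _ => rfl
      rw [mem_cf, mf]
      exact ⟨fun h => ⟨mem_univ _, (hKc c x hx x').1 h.2⟩, fun h =>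
        ⟨hfil c x hx x' ((hKc c x hx x').2 h.2), (hKc c x hx x').2 h.2⟩⟩
    have e2 : df b (cl b o Q1) D (Q2 c) t x = ∑ x' ∈ cf (cls c) K x,
        if b x' t ≠ b x t then D x' else 0 := by
      unfold df
      rw [← sum_filter]
      refine sum_congr (Finset.ext fun x' => ?_) fun _ _ => rfl
      rw [mf, mf, mem_cf]
      exact ⟨fun h => ⟨⟨hfil c x hx x' ((hKc c x hx x').2 h.2.1), (hKc c x hx x').2 h.2.1⟩,
        h.2.2⟩, fun h => ⟨mem_univ _, (hKc c x hx x').1 h.1.2, h.2⟩⟩
    rw [e1, e2, sum_div, mul_sum]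
    refine sum_congr rfl fun x' _ => ?_
    dsimp only
    split_ifs
    · rw [mul_one]
    · rw [mul_zero, zero_div, mul_zero]
  -- the heavy tests
  obtain ⟨hv, hhv⟩ : ∃ hv : κ × (τ → Bool) → τ → ℝ, hv = fun c t => ∑ x ∈ cls c,
    D x * ((∑ x' ∈ (cls c).filter (fun x' => b x' t ≠ b x t), D x') / M c) := ⟨_, rfl⟩
  have hv0 : ∀ c t, 0 ≤ hv c t := by
    intro c t
    rw [hhv]
    exact sum_nonneg fun x _ => mul_nonneg (hD x) (div_nonneg (sum_nonneg fun x' _ => hD x')
      (hM0 c))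
  have hst1 : ∀ t, ∑ c ∈ I, hv c t ≤ lam := by
    intro t
    refine le_trans (le_of_eq ?_) (hQ1t t)
    rw [hsum, hhv]
    refine sum_congr rfl fun c _ => sum_congr rfl fun x hx => ?_
    have hxc := (hcm c x).1 hx
    have e1 : ms b o D Q1 x = M c := by
      unfold ms
      rw [hM']
      refine sum_congr (Finset.ext fun x' => ?_) fun _ _ => rfl
      rw [mf, hcm, hxc]
      exact ⟨fun h => h.2, fun h => ⟨mem_univ _, h⟩⟩
    have e2 : df b o D Q1 t x = ∑ x' ∈ (cls c).filter (fun x' => b x' t ≠ b x t), D x' := by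
      unfold df
      refine sum_congr (Finset.ext fun x' => ?_) fun _ _ => rfl
      rw [mf, mf, hcm, hxc]
      exact ⟨fun h => h.2, fun h => ⟨mem_univ _, h⟩⟩
    rw [e1, e2]
  obtain ⟨Hv, hHv⟩ : ∃ Hv : κ × (τ → Bool) → Finset τ, Hv = fun c =>
    univ.filter fun t => θ * M c ≤ hv c t := ⟨_, rfl⟩
  have mHv : ∀ c t, t ∈ Hv c ↔ θ * M c ≤ hv c t := by
    intro c t
    rw [hHv]
    exact ⟨fun h => (mem_filter.1 h).2, fun h => mem_filter.2 ⟨mem_univ _, h⟩⟩
  have hcl : ∀ c ∈ I, PP D (cls c) K (fun x' x =>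
      α * ((univ.filter fun t => b x' t ≠ b x t).card : ℝ) + β * (wr row (b x') (b x) : ℝ)) ≤
      α * (Fintype.card τ * (lam * M c)) +
        β * (4 * θ * Fintype.card ι * M c + (Hv c).card * (lam * M c)) := by
    intro c _
    refine perclass row b hD (cls c) K θ α β lam (M c) (hM' c) hθ hα hβ ?_ (h2 c) (Hv c) ?_
    · intro x hx x' hx' i
      refine hn x x' ?_ i
      exact congrArg Prod.fst (((hcm c x).1 hx).trans ((hcm c x').1 hx').symm)
    · intro t ht
      have h3 := lt_of_not_ge (fun h => ht ((mHv c t).2 h))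
      rw [hhv] at h3
      exact h3
  rw [hPP]
  refine (sum_le_sum hcl).trans ?_
  have e1 : ∑ c ∈ I, (α * (Fintype.card τ * (lam * M c)) +
        β * (4 * θ * Fintype.card ι * M c + (Hv c).card * (lam * M c))) =
      α * (Fintype.card τ * (lam * ∑ c ∈ I, M c)) +
        β * (4 * θ * Fintype.card ι * ∑ c ∈ I, M c + lam * ∑ c ∈ I, (Hv c).card * M c) := by
    simp only [mul_add, mul_sum]
    rw [← sum_add_distrib, ← sum_add_distrib]
    refine sum_congr rfl fun c _ => ?_
    ring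
  have e2 : θ * ∑ c ∈ I, (Hv c).card * M c ≤ Fintype.card τ * lam := by
    calc θ * ∑ c ∈ I, (Hv c).card * M c = ∑ c ∈ I, ∑ t ∈ Hv c, θ * M c := by
          rw [mul_sum]
          refine sum_congr rfl fun c _ => ?_
          rw [sum_const, nsmul_eq_mul]
          ring
      _ ≤ ∑ c ∈ I, ∑ t ∈ Hv c, hv c t :=
          sum_le_sum fun c _ => sum_le_sum fun t ht => (mHv c t).1 ht
      _ ≤ ∑ c ∈ I, ∑ t, hv c t := sum_le_sum fun c _ =>
          sum_le_sum_of_subset_of_nonneg (subset_univ _) fun t _ _ => hv0 c t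
      _ = ∑ t, ∑ c ∈ I, hv c t := sum_comm
      _ ≤ ∑ _t : τ, lam := sum_le_sum fun t _ => hst1 t
      _ = Fintype.card τ * lam := by rw [sum_const, nsmul_eq_mul, card_univ]
  have e3 : ∑ c ∈ I, (Hv c).card * M c ≤ Fintype.card τ * lam / θ := by
    rw [le_div_iff₀ hθ, mul_comm]
    exact e2
  have e4 : lam * ∑ c ∈ I, (Hv c).card * M c ≤ Fintype.card τ * lam ^ 2 / θ := by
    refine (mul_le_mul_of_nonneg_left e3 hlam0).trans (le_of_eq ?_)
    ring
  rw [e1, hMs, mul_one, mul_one]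
  have e5 : 4 * θ * (Fintype.card ι : ℝ) + lam * ∑ c ∈ I, (Hv c).card * M c ≤
      4 * θ * Fintype.card ι + Fintype.card τ * lam ^ 2 / θ := by linarith
  exact add_le_add le_rfl (mul_le_mul_of_nonneg_left e5 hβ)

end Pool.Agent.H83.TR
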